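import Mathlib
import Pool.Agent.GPI.Final
import Pool.Agent.GPI.Repr

set_option autoImplicit false

open MeasureTheory ProbabilityTheory Matrix Set Filter
open scoped ENNReal Topology

namespace Pool.Agent.GPI.Full

/-- dominating function -/
noncomputable def Qd {d : ℕ} (g : Fin d → ℝ) : ℝ := ∏ k, (1 + |g k|)

lemma one_le_Qd {d : ℕ} (g : Fin d → ℝ) : 1 ≤ Qd g := by
  unfold Qd
  refine Finset.prod_induction _ (fun x => 1 ≤ x) (fun a b ha hb => ?_) le_rfl (fun i _ => ?_)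
  · nlinarith
  · linarith [abs_nonneg (g i)]

lemma sum_abs_le_Qd {d : ℕ} (g : Fin d → ℝ) : ∑ k, |g k| ≤ Qd g := by
  unfold Qd
  have h : ∀ s : Finset (Fin d), ∑ k ∈ s, |g k| + 1 ≤ ∏ k ∈ s, (1 + |g k|) := by
    intro s
    induction s using Finset.induction_on with
    | empty => simp
    | insert a s ha ih =>
      rw [Finset.sum_insert ha, Finset.prod_insert ha]
      have h0 : 0 ≤ ∑ k ∈ s, |g k| := Finset.sum_nonneg (fun i _ => abs_nonneg _)
      nlinarith [abs_nonneg (g a)]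
  linarith [h Finset.univ]

lemma integrable_Qd_pow {d : ℕ} (m : ℕ) : Integrable (fun g : Fin d → ℝ => Qd g ^ m) (gam d) := by
  have e : (fun g : Fin d → ℝ => Qd g ^ m) = fun g => ∏ k, (fun x : ℝ => (1 + |x|) ^ m) (g k) := by
    funext g
    simp [Qd, Finset.prod_pow]
  rw [e]
  unfold gam
  refine Integrable.fintype_prod (f := fun _ : Fin d => fun x : ℝ => (1 + |x|) ^ m) (fun i => ?_)
  have h1 : MemLp (fun x : ℝ => 1 + |x|) m (gaussianReal 0 1) := by
    refine (memLp_const (1:ℝ)).add ?_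
    have := (memLp_id_gaussianReal (μ := 0) (v := 1) (m : NNReal)).norm
    simpa using this
  have h2 := h1.integrable_norm_pow'
  refine h2.congr (Eventually.of_forall fun x => ?_)
  have : (0:ℝ) ≤ 1 + |x| := by positivity
  simp only [Real.norm_eq_abs, abs_of_nonneg this]

lemma prod_bound {d : ℕ} {B : Matrix (Fin d) (Fin d) ℝ} {C : ℝ} (hC : 0 ≤ C)
    (hB : ∀ i k, |B i k| ≤ C) {e : Fin d → ℝ} {N : ℕ} (he0 : ∀ i, 0 ≤ e i) (heN : ∀ i, e i ≤ N)
    (g : Fin d → ℝ) :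
    ∏ i, |(B *ᵥ g) i| ^ (e i) ≤ (1 + C) ^ (N * d) * Qd g ^ (N * d) := by
  have hQ := one_le_Qd g
  have h1 : ∀ i, |(B *ᵥ g) i| ≤ (1 + C) * Qd g := by
    intro i
    calc |(B *ᵥ g) i| = |∑ k, B i k * g k| := rfl
      _ ≤ ∑ k, |B i k * g k| := Finset.abs_sum_le_sum_abs _ _
      _ ≤ ∑ k, C * |g k| := Finset.sum_le_sum (fun k _ => by
          rw [abs_mul]; exact mul_le_mul_of_nonneg_right (hB i k) (abs_nonneg _))
      _ = C * ∑ k, |g k| := by rw [Finset.mul_sum]
      _ ≤ C * Qd g := mul_le_mul_of_nonneg_left (sum_abs_le_Qd g) hC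
      _ ≤ (1 + C) * Qd g := by nlinarith
  have hQ1 : 1 ≤ (1 + C) * Qd g := by nlinarith
  have h2 : ∀ i, |(B *ᵥ g) i| ^ (e i) ≤ ((1 + C) * Qd g) ^ N := by
    intro i
    calc |(B *ᵥ g) i| ^ (e i) ≤ ((1 + C) * Qd g) ^ (e i) :=
          Real.rpow_le_rpow (abs_nonneg _) (h1 i) (he0 i)
      _ ≤ ((1 + C) * Qd g) ^ (N : ℝ) := Real.rpow_le_rpow_of_exponent_le hQ1 (heN i)
      _ = ((1 + C) * Qd g) ^ N := Real.rpow_natCast _ _
  calc ∏ i, |(B *ᵥ g) i| ^ (e i) ≤ ∏ _i : Fin d, ((1 + C) * Qd g) ^ N :=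
        Finset.prod_le_prod (fun i _ => Real.rpow_nonneg (abs_nonneg _) _) (fun i _ => h2 i)
    _ = (1 + C) ^ (N * d) * Qd g ^ (N * d) := by
        rw [Finset.prod_const, Finset.card_univ, Fintype.card_fin, ← pow_mul, mul_pow]

lemma measurable_prod {d : ℕ} (B : Matrix (Fin d) (Fin d) ℝ) (e : Fin d → ℝ) :
    Measurable (fun g : Fin d → ℝ => ∏ i, |(B *ᵥ g) i| ^ (e i)) := by
  refine Finset.measurable_prod _ (fun i _ => ?_)
  have : Measurable (fun g : Fin d → ℝ => (B *ᵥ g) i) := by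
    have : (fun g : Fin d → ℝ => (B *ᵥ g) i) = fun g => ∑ k, B i k * g k := rfl
    rw [this]
    fun_prop
  exact (continuous_abs.measurable.comp this).pow_const _

lemma integrable_prod {d : ℕ} (B : Matrix (Fin d) (Fin d) ℝ) {e : Fin d → ℝ} (he : ∀ i, 0 ≤ e i) :
    Integrable (fun g : Fin d → ℝ => ∏ i, |(B *ᵥ g) i| ^ (e i)) (gam d) := by
  obtain ⟨N, hN⟩ : ∃ N : ℕ, ∀ i, e i ≤ N := by
    obtain ⟨N, hN⟩ := exists_nat_ge (∑ i, e i)
    exact ⟨N, fun i => (Finset.single_le_sum (fun j _ => he j) (Finset.mem_univ i)).trans hN⟩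
  have hC : ∀ i k, |B i k| ≤ ∑ i, ∑ k, |B i k| := fun i k =>
    (Finset.single_le_sum (f := fun k => |B i k|) (fun _ _ => abs_nonneg _) (Finset.mem_univ k)).trans
      (Finset.single_le_sum (f := fun i => ∑ k, |B i k|)
        (fun _ _ => Finset.sum_nonneg fun _ _ => abs_nonneg _) (Finset.mem_univ i))
  refine ((integrable_Qd_pow (d := d) (N * d)).const_mul ((1 + ∑ i, ∑ k, |B i k|) ^ (N * d))).mono'
    (measurable_prod B e).aestronglyMeasurable (Eventually.of_forall fun g => ?_)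
  rw [Real.norm_of_nonneg (Finset.prod_nonneg fun i _ => Real.rpow_nonneg (abs_nonneg _) _)]
  exact prod_bound (Finset.sum_nonneg fun _ _ => Finset.sum_nonneg fun _ _ => abs_nonneg _) hC he hN g

lemma km_continuousAt {c : ℝ} (hc : 0 ≤ c) : ContinuousAt km c := by
  unfold km
  have h1 : ContinuousAt (fun c : ℝ => (2:ℝ) ^ c) c := Real.continuousAt_const_rpow (by norm_num)
  have h2 : ContinuousAt (fun c : ℝ => Real.Gamma (c + 1/2)) c := by
    have h3 : ContinuousAt Real.Gamma (c + 1/2) := by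
      apply (Real.differentiableAt_Gamma _).continuousAt
      intro m
      have : (0:ℝ) ≤ m := Nat.cast_nonneg m
      linarith
    exact ContinuousAt.comp (f := fun c : ℝ => c + 1/2) (g := Real.Gamma) h3
      (continuousAt_id.add continuousAt_const)
  exact (h1.mul h2).div_const _

/-- pointwise limit of `|y|^(b+t)` as `t → 0+` -/
noncomputable def hl (b y : ℝ) : ℝ := if b = 0 ∧ y = 0 then 0 else |y| ^ b

lemma hl_le (b y : ℝ) : hl b y ≤ |y| ^ b := by
  unfold hl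
  split_ifs
  · exact Real.rpow_nonneg (abs_nonneg _) _
  · exact le_rfl

lemma hl_nonneg (b y : ℝ) : 0 ≤ hl b y := by
  unfold hl
  split_ifs
  · exact le_rfl
  · exact Real.rpow_nonneg (abs_nonneg _) _

lemma hl_tendsto {b : ℝ} (hb : 0 ≤ b) (y : ℝ) :
    Tendsto (fun t : ℝ => |y| ^ (b + t)) (𝓝[>] 0) (𝓝 (hl b y)) := by
  unfold hl
  by_cases hy : y = 0
  · subst hy
    have h0 : ∀ᶠ t : ℝ in 𝓝[>] 0, |(0:ℝ)| ^ (b + t) = 0 := by
      filter_upwards [self_mem_nhdsWithin] with t ht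
      have ht' : 0 < t := ht
      rw [abs_zero, Real.zero_rpow (by linarith)]
    have h1 : (if b = 0 ∧ (0:ℝ) = 0 then (0:ℝ) else |(0:ℝ)| ^ b) = 0 := by
      by_cases hb0 : b = 0
      · simp [hb0]
      · simp [hb0, Real.zero_rpow hb0]
    rw [h1]
    exact (tendsto_congr' h0).mpr tendsto_const_nhds
  · simp only [hy, and_false, if_false]
    have h2 : Tendsto (fun t : ℝ => |y| ^ (b + t)) (𝓝 0) (𝓝 (|y| ^ (b + 0))) := by
      have : ContinuousAt (fun t : ℝ => |y| ^ (b + t)) 0 :=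
        ContinuousAt.comp (f := fun t : ℝ => b + t) (g := fun s : ℝ => |y| ^ s)
          (Real.continuousAt_const_rpow (abs_ne_zero.mpr hy)) (by fun_prop)
      exact this
    rw [add_zero] at h2
    exact h2.mono_left nhdsWithin_le_nhds

/-- Step 1: invertible `A`, exponents `≥ 0`. -/
theorem gpi_inv' {d : ℕ}
    (hinv : ∀ {A : Matrix (Fin d) (Fin d) ℝ} (_ : A.det ≠ 0) {b : Fin d → ℝ} (_ : ∀ i, 0 < b i),
      ∏ i, ((∑ k, A i k ^ 2) ^ (b i / 2) * km (b i / 2)) ≤ ∫ g, ∏ i, |(A *ᵥ g) i| ^ (b i) ∂(gam d))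
    {A : Matrix (Fin d) (Fin d) ℝ} (hA : A.det ≠ 0) {b : Fin d → ℝ} (hb : ∀ i, 0 ≤ b i) :
    ∏ i, ((∑ k, A i k ^ 2) ^ (b i / 2) * km (b i / 2)) ≤ ∫ g, ∏ i, |(A *ᵥ g) i| ^ (b i) ∂(gam d) := by
  have hrow : ∀ i, ∑ k, A i k ^ 2 ≠ 0 := by
    intro i h
    apply hA
    apply Matrix.det_eq_zero_of_row_eq_zero i
    intro j
    have := (Finset.sum_eq_zero_iff_of_nonneg (fun k _ => sq_nonneg (A i k))).mp h j (Finset.mem_univ j)
    exact pow_eq_zero_iff (two_ne_zero) |>.mp this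
  have hL : Tendsto (fun t : ℝ => ∏ i, ((∑ k, A i k ^ 2) ^ ((b i + t) / 2) * km ((b i + t) / 2)))
      (𝓝[>] 0) (𝓝 (∏ i, ((∑ k, A i k ^ 2) ^ (b i / 2) * km (b i / 2)))) := by
    refine tendsto_finsetProd _ (fun i _ => ?_)
    have hc : ContinuousAt (fun t : ℝ => (b i + t) / 2) 0 := by fun_prop
    have e0 : (b i + 0) / 2 = b i / 2 := by ring
    have h1 : ContinuousAt (fun t : ℝ => (∑ k, A i k ^ 2) ^ ((b i + t) / 2)) 0 :=
      ContinuousAt.comp (f := fun t : ℝ => (b i + t) / 2) (g := fun s : ℝ => (∑ k, A i k ^ 2) ^ s)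
        (Real.continuousAt_const_rpow (hrow i)) hc
    have h2 : ContinuousAt (fun t : ℝ => km ((b i + t) / 2)) 0 :=
      ContinuousAt.comp (f := fun t : ℝ => (b i + t) / 2) (g := km)
        (km_continuousAt (by rw [e0]; linarith [hb i])) hc
    have h3 := (h1.mul h2).tendsto
    simp only [Pi.mul_apply] at h3
    rw [e0] at h3
    exact h3.mono_left nhdsWithin_le_nhds
  obtain ⟨N, hN⟩ : ∃ N : ℕ, ∀ i, b i + 1 ≤ N := by
    obtain ⟨N, hN⟩ := exists_nat_ge (∑ i, b i + 1)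
    exact ⟨N, fun i => (by
      linarith [Finset.single_le_sum (fun j _ => hb j) (Finset.mem_univ i)])⟩
  have hC : ∀ i k, |A i k| ≤ ∑ i, ∑ k, |A i k| := fun i k =>
    (Finset.single_le_sum (f := fun k => |A i k|) (fun _ _ => abs_nonneg _) (Finset.mem_univ k)).trans
      (Finset.single_le_sum (f := fun i => ∑ k, |A i k|)
        (fun _ _ => Finset.sum_nonneg fun _ _ => abs_nonneg _) (Finset.mem_univ i))
  have hR : Tendsto (fun t : ℝ => ∫ g, ∏ i, |(A *ᵥ g) i| ^ (b i + t) ∂(gam d)) (𝓝[>] 0)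
      (𝓝 (∫ g, ∏ i, hl (b i) ((A *ᵥ g) i) ∂(gam d))) := by
    refine tendsto_integral_filter_of_dominated_convergence
      (fun g => (1 + ∑ i, ∑ k, |A i k|) ^ (N * d) * Qd g ^ (N * d)) ?_ ?_ ?_ ?_
    · exact Eventually.of_forall fun t => (measurable_prod A _).aestronglyMeasurable
    · have : ∀ᶠ t : ℝ in 𝓝[>] 0, t ≤ 1 := by
        have : Iic (1:ℝ) ∈ 𝓝 (0:ℝ) := Iic_mem_nhds (by norm_num)
        exact nhdsWithin_le_nhds this
      filter_upwards [self_mem_nhdsWithin, this] with t ht0 ht1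
      have ht0' : 0 < t := ht0
      refine Eventually.of_forall fun g => ?_
      rw [Real.norm_of_nonneg (Finset.prod_nonneg fun i _ => Real.rpow_nonneg (abs_nonneg _) _)]
      exact prod_bound (Finset.sum_nonneg fun _ _ => Finset.sum_nonneg fun _ _ => abs_nonneg _) hC
        (fun i => by linarith [hb i]) (fun i => by linarith [hN i]) g
    · exact (integrable_Qd_pow _).const_mul _
    · exact Eventually.of_forall fun g => tendsto_finsetProd _ (fun i _ => hl_tendsto (hb i) _)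
  have hle : ∏ i, ((∑ k, A i k ^ 2) ^ (b i / 2) * km (b i / 2)) ≤
      ∫ g, ∏ i, hl (b i) ((A *ᵥ g) i) ∂(gam d) := by
    refine le_of_tendsto_of_tendsto hL hR ?_
    filter_upwards [self_mem_nhdsWithin] with t ht
    have ht' : 0 < t := ht
    exact hinv hA (fun i => by linarith [hb i])
  refine hle.trans ?_
  refine integral_mono_of_nonneg (Eventually.of_forall fun g => Finset.prod_nonneg fun i _ => hl_nonneg _ _)
    (integrable_prod A hb) (Eventually.of_forall fun g => ?_)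
  exact Finset.prod_le_prod (fun i _ => hl_nonneg _ _) (fun i _ => hl_le _ _)

lemma det_ne_zero_eventually {d : ℕ} (A : Matrix (Fin d) (Fin d) ℝ) :
    ∀ᶠ s : ℝ in 𝓝[>] 0, (A + s • (1 : Matrix (Fin d) (Fin d) ℝ)).det ≠ 0 := by
  have hfin : {s : ℝ | (A + s • (1 : Matrix (Fin d) (Fin d) ℝ)).det = 0}.Finite := by
    have h1 : ((-A).charpoly.rootSet ℝ).Finite := Polynomial.rootSet_finite _ _
    refine h1.subset (fun s hs => ?_)
    have hs' : (A + s • (1 : Matrix (Fin d) (Fin d) ℝ)).det = 0 := hs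
    rw [Polynomial.mem_rootSet]
    refine ⟨(Matrix.charpoly_monic _).ne_zero, ?_⟩
    rw [Polynomial.coe_aeval_eq_eval, Matrix.eval_charpoly]
    rw [← hs']
    congr 1
    rw [sub_neg_eq_add, add_comm]
    congr 1
    ext i j
    simp [Matrix.scalar_apply, Matrix.diagonal_apply, Matrix.one_apply]
  have h2 : ({s : ℝ | (A + s • (1 : Matrix (Fin d) (Fin d) ℝ)).det = 0} \ {0})ᶜ ∈ 𝓝 (0:ℝ) := by
    apply (hfin.subset sdiff_subset).isClosed.isOpen_compl.mem_nhds
    simp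
  filter_upwards [nhdsWithin_le_nhds h2, self_mem_nhdsWithin] with s hs hs0 h
  apply hs
  exact ⟨h, ne_of_gt hs0⟩

/-- all `A`, all exponents `≥ 0` -/
theorem gpi_all_of_inv {d : ℕ}
    (hinv : ∀ {A : Matrix (Fin d) (Fin d) ℝ} (_ : A.det ≠ 0) {b : Fin d → ℝ} (_ : ∀ i, 0 < b i),
      ∏ i, ((∑ k, A i k ^ 2) ^ (b i / 2) * km (b i / 2)) ≤ ∫ g, ∏ i, |(A *ᵥ g) i| ^ (b i) ∂(gam d))
    (A : Matrix (Fin d) (Fin d) ℝ) {b : Fin d → ℝ} (hb : ∀ i, 0 ≤ b i) :
    ∏ i, ((∑ k, A i k ^ 2) ^ (b i / 2) * km (b i / 2)) ≤ ∫ g, ∏ i, |(A *ᵥ g) i| ^ (b i) ∂(gam d) := by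
  have hL : Tendsto (fun s : ℝ => ∏ i, ((∑ k, (A + s • (1 : Matrix (Fin d) (Fin d) ℝ)) i k ^ 2) ^ (b i / 2)
      * km (b i / 2))) (𝓝[>] 0) (𝓝 (∏ i, ((∑ k, A i k ^ 2) ^ (b i / 2) * km (b i / 2)))) := by
    refine tendsto_finsetProd _ (fun i _ => ?_)
    refine Tendsto.mul_const _ ?_
    have hc : Continuous (fun s : ℝ => (∑ k, (A + s • (1 : Matrix (Fin d) (Fin d) ℝ)) i k ^ 2) ^ (b i / 2)) := by
      refine (Real.continuous_rpow_const (by linarith [hb i])).comp ?_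
      refine continuous_finsetSum _ (fun k _ => ?_)
      simp only [Matrix.add_apply, Matrix.smul_apply, smul_eq_mul]
      fun_prop
    have := hc.tendsto 0
    simp only [zero_smul, add_zero] at this
    exact this.mono_left nhdsWithin_le_nhds
  obtain ⟨N, hN⟩ : ∃ N : ℕ, ∀ i, b i ≤ N := by
    obtain ⟨N, hN⟩ := exists_nat_ge (∑ i, b i)
    exact ⟨N, fun i => (Finset.single_le_sum (fun j _ => hb j) (Finset.mem_univ i)).trans hN⟩
  have hC : ∀ i k, |A i k| ≤ ∑ i, ∑ k, |A i k| := fun i k =>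
    (Finset.single_le_sum (f := fun k => |A i k|) (fun _ _ => abs_nonneg _) (Finset.mem_univ k)).trans
      (Finset.single_le_sum (f := fun i => ∑ k, |A i k|)
        (fun _ _ => Finset.sum_nonneg fun _ _ => abs_nonneg _) (Finset.mem_univ i))
  have hR : Tendsto (fun s : ℝ => ∫ g, ∏ i, |((A + s • (1 : Matrix (Fin d) (Fin d) ℝ)) *ᵥ g) i| ^ (b i) ∂(gam d))
      (𝓝[>] 0) (𝓝 (∫ g, ∏ i, |(A *ᵥ g) i| ^ (b i) ∂(gam d))) := by
    refine tendsto_integral_filter_of_dominated_convergence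
      (fun g => (1 + (∑ i, ∑ k, |A i k| + 1)) ^ (N * d) * Qd g ^ (N * d)) ?_ ?_ ?_ ?_
    · exact Eventually.of_forall fun t => (measurable_prod _ _).aestronglyMeasurable
    · have : ∀ᶠ t : ℝ in 𝓝[>] 0, t ≤ 1 := by
        have : Iic (1:ℝ) ∈ 𝓝 (0:ℝ) := Iic_mem_nhds (by norm_num)
        exact nhdsWithin_le_nhds this
      filter_upwards [self_mem_nhdsWithin, this] with t ht0 ht1
      have ht0' : 0 < t := ht0
      refine Eventually.of_forall fun g => ?_
      rw [Real.norm_of_nonneg (Finset.prod_nonneg fun i _ => Real.rpow_nonneg (abs_nonneg _) _)]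
      refine prod_bound (by positivity) (fun i k => ?_) hb hN g
      simp only [Matrix.add_apply, Matrix.smul_apply, smul_eq_mul]
      refine (abs_add_le _ _).trans (add_le_add (hC i k) ?_)
      rw [Matrix.one_apply]
      split_ifs
      · rw [mul_one, abs_of_pos ht0']; exact ht1
      · simp
    · exact (integrable_Qd_pow _).const_mul _
    · refine Eventually.of_forall fun g => tendsto_finsetProd _ (fun i _ => ?_)
      have hc : Continuous (fun s : ℝ => |((A + s • (1 : Matrix (Fin d) (Fin d) ℝ)) *ᵥ g) i| ^ (b i)) := by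
        refine (Real.continuous_rpow_const (hb i)).comp (continuous_abs.comp ?_)
        have e : (fun s : ℝ => ((A + s • (1 : Matrix (Fin d) (Fin d) ℝ)) *ᵥ g) i) =
            fun s => (A *ᵥ g) i + s * g i := by
          funext s
          rw [Matrix.add_mulVec, Matrix.smul_mulVec, Matrix.one_mulVec]
          rfl
        rw [e]
        fun_prop
      have := hc.tendsto 0
      simp only [zero_smul, add_zero] at this
      exact this.mono_left nhdsWithin_le_nhds
  refine le_of_tendsto_of_tendsto hL hR ?_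
  filter_upwards [det_ne_zero_eventually A] with s hs
  exact gpi_inv' hinv hs hb

end Pool.Agent.GPI.Full
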