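import Mathlib

set_option autoImplicit false

open Matrix

namespace Pool.Agent.GPI.Full

variable {ι : Type*} [Fintype ι] [DecidableEq ι]

/-- The open orthant whose negative coordinates are exactly those in `s`. -/
def Orth (s : Finset ι) : Set (ι → ℝ) := {c | ∀ i, if i ∈ s then c i < 0 else 0 < c i}

/-- The map `c ↦ l / c - M c`. -/
noncomputable def fz (M : Matrix ι ι ℝ) (l c : ι → ℝ) : ι → ℝ := fun i => l i / c i - (M *ᵥ c) i

end Pool.Agent.GPI.Full
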