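import Pool.Agent.GPI.Repr

/-!
Module E1 of the proof of the full Gaussian product inequality (helper13): the density of `A g`.
-/

set_option autoImplicit false

open MeasureTheory ProbabilityTheory Matrix Set Filter
open scoped ENNReal Topology

namespace Pool.Agent.GPI.Full

/-- Density of `A g`, `g` standard Gaussian on `Fin d → ℝ`. -/
noncomputable def dens {d : ℕ} (A : Matrix (Fin d) (Fin d) ℝ) (y : Fin d → ℝ) : ℝ :=
  |A.det|⁻¹ * ((√(2 * Real.pi))⁻¹ ^ d * Real.exp (-(∑ i, ((A⁻¹ *ᵥ y) i) ^ 2) / 2))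

theorem dens_shift {d : ℕ} {A : Matrix (Fin d) (Fin d) ℝ} (hA : A.det ≠ 0) (z c : Fin d → ℝ) :
    dens A (z + (A * Aᵀ) *ᵥ c) = dens A z * Real.exp (-(c ⬝ᵥ z) - (c ⬝ᵥ (A * Aᵀ) *ᵥ c) / 2) := by
  have hu : IsUnit A.det := isUnit_iff_ne_zero.2 hA
  have h1 : A⁻¹ *ᵥ (z + (A * Aᵀ) *ᵥ c) = A⁻¹ *ᵥ z + Aᵀ *ᵥ c := by
    rw [Matrix.mulVec_add, Matrix.mulVec_mulVec, ← Matrix.mul_assoc, Matrix.nonsing_inv_mul _ hu,
      Matrix.one_mul]
  have h2 : (A⁻¹ *ᵥ z) ⬝ᵥ (Aᵀ *ᵥ c) = c ⬝ᵥ z := by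
    rw [Matrix.dotProduct_mulVec, Matrix.vecMul_transpose, Matrix.mulVec_mulVec,
      Matrix.mul_nonsing_inv _ hu, Matrix.one_mulVec, dotProduct_comm]
  have h3 : (Aᵀ *ᵥ c) ⬝ᵥ (Aᵀ *ᵥ c) = c ⬝ᵥ (A * Aᵀ) *ᵥ c := by
    rw [Matrix.dotProduct_mulVec, Matrix.vecMul_transpose, Matrix.mulVec_mulVec, dotProduct_comm]
  have h4 : ∑ i, ((A⁻¹ *ᵥ (z + (A * Aᵀ) *ᵥ c)) i) ^ 2 =
      ∑ i, ((A⁻¹ *ᵥ z) i) ^ 2 + 2 * (c ⬝ᵥ z) + c ⬝ᵥ (A * Aᵀ) *ᵥ c := by
    rw [h1, ← h2, ← h3]
    simp only [dotProduct, Pi.add_apply, Finset.mul_sum, ← Finset.sum_add_distrib]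
    exact Finset.sum_congr rfl fun i _ => by ring
  unfold dens
  rw [h4, mul_assoc, mul_assoc, ← Real.exp_add]
  congr 3
  ring

theorem dens_nonneg {d : ℕ} (A : Matrix (Fin d) (Fin d) ℝ) (y : Fin d → ℝ) : 0 ≤ dens A y := by
  unfold dens
  positivity

theorem dens_continuous {d : ℕ} (A : Matrix (Fin d) (Fin d) ℝ) : Continuous (dens A) := by
  unfold dens
  refine continuous_const.mul (continuous_const.mul (Real.continuous_exp.comp ?_))
  refine Continuous.div_const (Continuous.neg (continuous_finsetSum _ fun i _ => ?_)) _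
  exact ((continuous_apply i).comp (Continuous.matrix_mulVec continuous_const continuous_id)).pow 2

/-- the standard Gaussian density -/
theorem gauss_prod {d : ℕ} (x : Fin d → ℝ) : ∏ i, gaussianPDFReal 0 1 (x i) =
    (√(2 * Real.pi))⁻¹ ^ d * Real.exp (-(∑ i, (x i) ^ 2) / 2) := by
  simp only [gaussianPDFReal, Finset.prod_mul_distrib, ← Real.exp_sum]
  simp only [NNReal.coe_one, mul_one, sub_zero, Finset.prod_const, Finset.card_univ,
    Fintype.card_fin]
  congr 2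
  rw [← Finset.sum_div, Finset.sum_neg_distrib]

theorem gam_withDensity (d : ℕ) : gam d = (volume : Measure (Fin d → ℝ)).withDensity
    fun x => ENNReal.ofReal (∏ i, gaussianPDFReal 0 1 (x i)) := by
  unfold gam
  refine (Measure.pi_eq (μ := fun _ : Fin d => gaussianReal 0 1) fun s hs => ?_)
  have hms : MeasurableSet (univ.pi s) := MeasurableSet.univ_pi hs
  rw [withDensity_apply _ hms, ← lintegral_indicator hms]
  have h1 : ∀ x : Fin d → ℝ, (univ.pi s).indicator
      (fun x => ENNReal.ofReal (∏ i, gaussianPDFReal 0 1 (x i))) x =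
      ENNReal.ofReal (∏ i, (s i).indicator (gaussianPDFReal 0 1) (x i)) := by
    intro x
    by_cases hx : x ∈ univ.pi s
    · rw [indicator_of_mem hx]
      congr 1
      exact Finset.prod_congr rfl fun i _ => by rw [indicator_of_mem (hx i (mem_univ i))]
    · rw [indicator_of_notMem hx]
      simp only [mem_univ_pi, not_forall] at hx
      obtain ⟨i, hi⟩ := hx
      rw [Finset.prod_eq_zero (Finset.mem_univ i) (indicator_of_notMem hi _), ENNReal.ofReal_zero]
  simp only [h1]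
  have hI : ∀ i, Integrable ((s i).indicator (gaussianPDFReal 0 1)) := fun i =>
    (integrable_gaussianPDFReal 0 1).indicator (hs i)
  have h0 : ∀ i x, 0 ≤ (s i).indicator (gaussianPDFReal 0 1) x := fun i x =>
    indicator_nonneg (fun y _ => gaussianPDFReal_nonneg 0 1 y) x
  have h2 : Integrable (fun x : Fin d → ℝ => ∏ i, (s i).indicator (gaussianPDFReal 0 1) (x i)) :=
    Integrable.fintype_prod hI
  rw [← ofReal_integral_eq_lintegral_ofReal h2
      (ae_of_all _ fun x => Finset.prod_nonneg fun i _ => h0 i _),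
    integral_fintype_prod_volume_eq_prod,
    ENNReal.ofReal_prod_of_nonneg fun i _ => integral_nonneg (h0 i)]
  refine Finset.prod_congr rfl fun i _ => ?_
  rw [gaussianReal_apply_eq_integral _ one_ne_zero, integral_indicator (hs i)]

theorem lintegral_gam {d : ℕ} {A : Matrix (Fin d) (Fin d) ℝ} (hA : A.det ≠ 0)
    {F : (Fin d → ℝ) → ℝ≥0∞} (hF : Measurable F) :
    ∫⁻ g, F (A *ᵥ g) ∂(gam d) = ∫⁻ y, F y * ENNReal.ofReal (dens A y) := by
  have hu : IsUnit A.det := isUnit_iff_ne_zero.2 hA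
  have hAc : Continuous fun g : Fin d → ℝ => A *ᵥ g :=
    Continuous.matrix_mulVec continuous_const continuous_id
  have hAi : Continuous fun g : Fin d → ℝ => A⁻¹ *ᵥ g :=
    Continuous.matrix_mulVec continuous_const continuous_id
  have hm : Measurable fun x : Fin d → ℝ =>
      ENNReal.ofReal ((√(2 * Real.pi))⁻¹ ^ d * Real.exp (-(∑ i, (x i) ^ 2) / 2)) := by
    fun_prop
  have hd : Measurable fun y => ENNReal.ofReal (dens A y) :=
    (dens_continuous A).measurable.ennreal_ofReal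
  rw [gam_withDensity]
  simp only [gauss_prod]
  have hFA : Measurable fun g => F (A *ᵥ g) := hF.comp hAc.measurable
  rw [lintegral_withDensity_eq_lintegral_mul _ hm hFA]
  have hmap := Real.map_matrix_volume_pi_eq_smul_volume_pi hA
  have e1 : ∀ g : Fin d → ℝ, ((fun x : Fin d → ℝ =>
      ENNReal.ofReal ((√(2 * Real.pi))⁻¹ ^ d * Real.exp (-(∑ i, (x i) ^ 2) / 2))) *
        fun g => F (A *ᵥ g)) g = (fun y => ENNReal.ofReal ((√(2 * Real.pi))⁻¹ ^ d *
          Real.exp (-(∑ i, ((A⁻¹ *ᵥ y) i) ^ 2) / 2)) * F y) (toLin' A g) := by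
    intro g
    simp only [Pi.mul_apply, toLin'_apply, Matrix.mulVec_mulVec, Matrix.nonsing_inv_mul _ hu,
      Matrix.one_mulVec]
  have hm2 : Measurable fun y : Fin d → ℝ => ENNReal.ofReal ((√(2 * Real.pi))⁻¹ ^ d *
      Real.exp (-(∑ i, ((A⁻¹ *ᵥ y) i) ^ 2) / 2)) := hm.comp hAi.measurable
  have hm3 : Measurable fun g : Fin d → ℝ => toLin' A g := by
    simp only [toLin'_apply]
    exact hAc.measurable
  have hm4 : Measurable fun y : Fin d → ℝ => ENNReal.ofReal ((√(2 * Real.pi))⁻¹ ^ d *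
      Real.exp (-(∑ i, ((A⁻¹ *ᵥ y) i) ^ 2) / 2)) * F y := hm2.mul hF
  rw [lintegral_congr e1, ← lintegral_map (g := fun g : Fin d → ℝ => toLin' A g) hm4 hm3]
  rw [show Measure.map (fun g : Fin d → ℝ => toLin' A g) volume =
    ENNReal.ofReal (abs (det A)⁻¹) • volume from hmap, lintegral_smul_measure, smul_eq_mul,
    ← lintegral_const_mul _ hm4]
  refine lintegral_congr fun y => ?_
  unfold dens
  rw [ENNReal.ofReal_mul (by positivity : (0 : ℝ) ≤ |A.det|⁻¹), abs_inv]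
  ring

end Pool.Agent.GPI.Full
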