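import Mathlib

/-!
Module D of the proof of the full Gaussian product inequality (helper36): the Fubini step.
-/

set_option autoImplicit false

open MeasureTheory Matrix Set
open scoped ENNReal

namespace Pool.Agent.GPI.Full

variable {ι : Type*} [Fintype ι] [DecidableEq ι]

omit [DecidableEq ι] in
theorem lint_prod (f : ι → ℝ → ℝ) (hf0 : ∀ i x, 0 ≤ f i x) (hfi : ∀ i, Integrable (f i)) :
    ∫⁻ x : ι → ℝ, ENNReal.ofReal (∏ i, f i (x i)) = ∏ i, ENNReal.ofReal (∫ x, f i x) := by
  have h1 : Integrable (fun x : ι → ℝ => ∏ i, f i (x i)) := Integrable.fintype_prod hfi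
  rw [← ofReal_integral_eq_lintegral_ofReal h1
      (ae_of_all _ fun x => Finset.prod_nonneg fun i _ => hf0 i _),
    integral_fintype_prod_volume_eq_prod,
    ENNReal.ofReal_prod_of_nonneg fun i _ => integral_nonneg (hf0 i)]

/-- Gamma integrand. -/
noncomputable def fG (b x : ℝ) : ℝ := if 0 < x then x ^ (b - 1) * Real.exp (-x) else 0

theorem fG_nonneg (b x : ℝ) : 0 ≤ fG b x := by
  unfold fG; split_ifs with h
  · positivity
  · exact le_rfl

theorem fG_eq (b : ℝ) : fG b = (Ioi (0 : ℝ)).indicator (fun x => Real.exp (-x) * x ^ (b - 1)) := by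
  funext x
  unfold fG
  by_cases h : 0 < x
  · rw [if_pos h, indicator_of_mem (show x ∈ Ioi (0 : ℝ) from h), mul_comm]
  · rw [if_neg h, indicator_of_notMem (show x ∉ Ioi (0 : ℝ) from h)]

theorem fG_integrable {b : ℝ} (hb : 0 < b) : Integrable (fG b) := by
  rw [fG_eq, integrable_indicator_iff measurableSet_Ioi]
  exact Real.GammaIntegral_convergent hb

theorem fG_integral {b : ℝ} (hb : 0 < b) : ∫ x, fG b x = Real.Gamma b := by
  rw [fG_eq, integral_indicator measurableSet_Ioi, Real.Gamma_eq_integral hb]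

/-- Gaussian moment integrand on a half line. -/
noncomputable def gN (b y x : ℝ) : ℝ :=
  if 0 < x * y then |x| ^ (b - 1) * Real.exp (-x ^ 2 / 2) else 0

theorem gN_nonneg (b y x : ℝ) : 0 ≤ gN b y x := by
  unfold gN; split_ifs with h
  · positivity
  · exact le_rfl

theorem gN_one_eq (b : ℝ) : gN b 1 =
    (Ioi (0 : ℝ)).indicator (fun x => x ^ (b - 1) * Real.exp (-(1 / 2) * x ^ (2 : ℝ))) := by
  funext x
  unfold gN
  rw [mul_one]
  by_cases h : 0 < x
  · rw [if_pos h, indicator_of_mem (show x ∈ Ioi (0 : ℝ) from h), abs_of_pos h]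
    congr 2
    rw [Real.rpow_two]; ring
  · rw [if_neg h, indicator_of_notMem (show x ∉ Ioi (0 : ℝ) from h)]

theorem gN_one_integrable {b : ℝ} (hb : 0 < b) : Integrable (gN b 1) := by
  rw [gN_one_eq, integrable_indicator_iff measurableSet_Ioi]
  exact integrableOn_rpow_mul_exp_neg_mul_rpow (by linarith) (by norm_num) (by norm_num)

theorem gN_one_integral {b : ℝ} (hb : 0 < b) :
    ∫ x, gN b 1 x = 2 ^ (b / 2 - 1) * Real.Gamma (b / 2) := by
  rw [gN_one_eq, integral_indicator measurableSet_Ioi,
    integral_rpow_mul_exp_neg_mul_rpow (by norm_num) (by linarith) (by norm_num)]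
  have h1 : (b - 1 + 1) / 2 = b / 2 := by ring
  rw [h1, show -(b - 1 + 1) / 2 = -(b / 2) by ring, show (1 / 2 : ℝ) = 2⁻¹ by norm_num,
    Real.inv_rpow (by norm_num), Real.rpow_neg (by norm_num), inv_inv,
    Real.rpow_sub (by norm_num), Real.rpow_one]
  ring

theorem gN_pos {b y : ℝ} (hy : 0 < y) : gN b y = gN b 1 := by
  funext x
  unfold gN
  have : 0 < x * y ↔ 0 < x * 1 := by
    rw [mul_one]; exact mul_pos_iff_of_pos_right hy
  simp only [this]

theorem gN_neg {b y : ℝ} (hy : y < 0) : gN b y = fun x => gN b 1 (-x) := by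
  funext x
  unfold gN
  have : 0 < x * y ↔ 0 < -x * 1 := by
    rw [mul_one]
    constructor
    · intro h; by_contra hx; push Not at hx
      have : 0 ≤ x := by linarith
      have := mul_nonpos_of_nonneg_of_nonpos this hy.le
      linarith
    · intro h; exact mul_pos_of_neg_of_neg (by linarith) hy
  simp only [this, abs_neg, neg_sq]

theorem gN_zero {b : ℝ} : gN b 0 = fun _ => 0 := by
  funext x; unfold gN; simp

theorem gN_integrable {b : ℝ} (hb : 0 < b) (y : ℝ) : Integrable (gN b y) := by
  rcases lt_trichotomy y 0 with h | h | h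
  · rw [gN_neg h]; exact (gN_one_integrable hb).comp_neg
  · rw [h, gN_zero]; exact integrable_zero _ _ _
  · rw [gN_pos h]; exact gN_one_integrable hb

theorem gN_integral_le {b : ℝ} (hb : 0 < b) (y : ℝ) :
    ∫ x, gN b y x ≤ 2 ^ (b / 2 - 1) * Real.Gamma (b / 2) := by
  rcases lt_trichotomy y 0 with h | h | h
  · rw [gN_neg h, integral_neg_eq_self (gN b 1), gN_one_integral hb]
  · rw [h, gN_zero]
    simp only [integral_zero]
    have := Real.Gamma_pos_of_pos (by linarith : 0 < b / 2)
    positivity
  · rw [gN_pos h, gN_one_integral hb]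

/-- Diagonal change of variables. -/
theorem lint_diag {c : ι → ℝ} (hc : ∀ i, c i ≠ 0) {f : (ι → ℝ) → ℝ≥0∞} (hf : Measurable f) :
    ∫⁻ l, f l = ENNReal.ofReal (∏ i, |c i|) * ∫⁻ y : ι → ℝ, f (fun i => c i * y i) := by
  have hdet : det (diagonal c) ≠ 0 := by
    rw [det_diagonal]; exact Finset.prod_ne_zero_iff.2 fun i _ => hc i
  have h1 := Real.smul_map_diagonal_volume_pi hdet
  have hm : Measurable (fun y : ι → ℝ => (toLin' (diagonal c)) y) :=
    (LinearMap.continuous_on_pi _).measurable
  conv_lhs => rw [← h1]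
  rw [lintegral_smul_measure, lintegral_map hf hm, det_diagonal, Finset.abs_prod, smul_eq_mul]
  congr 2
  funext y
  congr 1
  funext i
  rw [toLin'_apply, mulVec_diagonal]

theorem fubini_step {φ : (ι → ℝ) → ℝ} (hφm : Measurable φ) (hφ0 : ∀ x, 0 ≤ φ x)
    (h : ∀ l : ι → ℝ, (∀ i, 0 < l i) → ENNReal.ofReal (Real.exp (-∑ i, l i)) ≤
      ∫⁻ c : ι → ℝ, ENNReal.ofReal ((∏ i, l i / (c i) ^ 2) * Real.exp (-(∑ i, (c i) ^ 2) / 2) *
        φ (fun i => l i / c i)))
    {b : ι → ℝ} (hb : ∀ i, 0 < b i) :
    ∏ i, ENNReal.ofReal (Real.Gamma (b i)) ≤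
      (∏ i, ENNReal.ofReal (2 ^ (b i / 2 - 1) * Real.Gamma (b i / 2))) *
        ∫⁻ y : ι → ℝ, ENNReal.ofReal ((∏ i, |y i| ^ (b i)) * φ y) := by
  classical
  -- the integrand
  let S : Set ((ι → ℝ) × (ι → ℝ)) := {p | ∀ i, 0 < p.1 i}
  have hS : MeasurableSet S := by
    have : S = ⋂ i, {p : (ι → ℝ) × (ι → ℝ) | 0 < p.1 i} := by
      ext p; simp [S]
    rw [this]
    exact MeasurableSet.iInter fun i => measurableSet_lt measurable_const
      ((measurable_pi_apply i).comp measurable_fst)
  let J0 : (ι → ℝ) × (ι → ℝ) → ℝ := fun p =>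
    (∏ i, (p.1 i) ^ (b i - 1)) * ((∏ i, p.1 i / (p.2 i) ^ 2) *
      Real.exp (-(∑ i, (p.2 i) ^ 2) / 2) * φ (fun i => p.1 i / p.2 i))
  have hJ0 : Measurable J0 := by
    have m1 : ∀ i, Measurable (fun p : (ι → ℝ) × (ι → ℝ) => p.1 i) := fun i =>
      (measurable_pi_apply i).comp measurable_fst
    have m2 : ∀ i, Measurable (fun p : (ι → ℝ) × (ι → ℝ) => p.2 i) := fun i =>
      (measurable_pi_apply i).comp measurable_snd
    refine Measurable.mul (Finset.measurable_fun_prod _ fun i _ => (m1 i).pow_const _) ?_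
    refine Measurable.mul (Measurable.mul
      (Finset.measurable_fun_prod _ fun i _ => (m1 i).div ((m2 i).pow_const 2)) ?_) ?_
    · exact ((Finset.measurable_fun_sum _ fun i _ => (m2 i).pow_const 2).neg.div_const 2).exp
    · exact hφm.comp (measurable_pi_lambda _ fun i => (m1 i).div (m2 i))
  let J : (ι → ℝ) × (ι → ℝ) → ℝ≥0∞ := S.indicator (fun p => ENNReal.ofReal (J0 p))
  have hJ : Measurable J := (hJ0.ennreal_ofReal).indicator hS
  let K0 : (ι → ℝ) × (ι → ℝ) → ℝ≥0∞ := fun p =>
    ENNReal.ofReal ((∏ i, |p.2 i| ^ (b i)) * φ p.2) *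
      ENNReal.ofReal (∏ i, gN (b i) (p.2 i) (p.1 i))
  have hK0 : Measurable K0 := by
    have m1 : ∀ i, Measurable (fun p : (ι → ℝ) × (ι → ℝ) => p.1 i) := fun i =>
      (measurable_pi_apply i).comp measurable_fst
    have m2 : ∀ i, Measurable (fun p : (ι → ℝ) × (ι → ℝ) => p.2 i) := fun i =>
      (measurable_pi_apply i).comp measurable_snd
    have n1 : Measurable (fun p : (ι → ℝ) × (ι → ℝ) =>
        ENNReal.ofReal ((∏ i, |p.2 i| ^ (b i)) * φ p.2)) := by
      refine (Measurable.mul (Finset.measurable_fun_prod _ fun i _ => ?_)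
        (hφm.comp measurable_snd)).ennreal_ofReal
      exact ((m2 i).abs).pow_const _
    have n2 : Measurable (fun p : (ι → ℝ) × (ι → ℝ) =>
        ENNReal.ofReal (∏ i, gN (b i) (p.2 i) (p.1 i))) := by
      refine (Finset.measurable_fun_prod _ fun i _ => ?_).ennreal_ofReal
      unfold gN
      refine Measurable.ite (measurableSet_lt measurable_const ((m1 i).mul (m2 i))) ?_
        measurable_const
      exact (((m1 i).abs).pow_const _).mul ((((m1 i).pow_const 2).neg.div_const 2).exp)
    exact n1.mul n2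
  calc ∏ i, ENNReal.ofReal (Real.Gamma (b i))
      = ∫⁻ l : ι → ℝ, ENNReal.ofReal (∏ i, fG (b i) (l i)) := by
        rw [lint_prod (fun i => fG (b i)) (fun i x => fG_nonneg _ _)
          (fun i => fG_integrable (hb i))]
        exact Finset.prod_congr rfl fun i _ => by rw [fG_integral (hb i)]
    _ ≤ ∫⁻ l : ι → ℝ, ∫⁻ c : ι → ℝ, J (l, c) := by
        refine lintegral_mono fun l => ?_
        by_cases hl : ∀ i, 0 < l i
        · have e1 : ∏ i, fG (b i) (l i) = (∏ i, (l i) ^ (b i - 1)) * Real.exp (-∑ i, l i) := by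
            rw [← Finset.sum_neg_distrib, Real.exp_sum, ← Finset.prod_mul_distrib]
            exact Finset.prod_congr rfl fun i _ => by unfold fG; rw [if_pos (hl i)]
          have e2 : 0 ≤ ∏ i, (l i) ^ (b i - 1) :=
            Finset.prod_nonneg fun i _ => Real.rpow_nonneg (hl i).le _
          show ENNReal.ofReal (∏ i, fG (b i) (l i)) ≤ ∫⁻ c : ι → ℝ, J (l, c)
          rw [e1, ENNReal.ofReal_mul e2]
          have e3 : ∀ c : ι → ℝ, J (l, c) = ENNReal.ofReal (∏ i, (l i) ^ (b i - 1)) *
              ENNReal.ofReal ((∏ i, l i / (c i) ^ 2) * Real.exp (-(∑ i, (c i) ^ 2) / 2) *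
                φ (fun i => l i / c i)) := by
            intro c
            show S.indicator (fun p => ENNReal.ofReal (J0 p)) (l, c) = _
            rw [indicator_of_mem (show (l, c) ∈ S from hl), ← ENNReal.ofReal_mul e2]
          simp_rw [e3]
          rw [lintegral_const_mul' _ _ ENNReal.ofReal_ne_top]
          exact mul_le_mul_right (h l hl) _
        · push Not at hl
          obtain ⟨i, hi⟩ := hl
          have e1 : ∏ i, fG (b i) (l i) = 0 :=
            Finset.prod_eq_zero (Finset.mem_univ i) (by unfold fG; rw [if_neg (not_lt.2 hi)])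
          show ENNReal.ofReal (∏ i, fG (b i) (l i)) ≤ ∫⁻ c : ι → ℝ, J (l, c)
          rw [e1, ENNReal.ofReal_zero]
          exact bot_le
    _ = ∫⁻ c : ι → ℝ, ∫⁻ l : ι → ℝ, J (l, c) :=
        lintegral_lintegral_swap hJ.aemeasurable
    _ ≤ ∫⁻ c : ι → ℝ, ∫⁻ y : ι → ℝ, K0 (c, y) := by
        refine lintegral_mono fun c => ?_
        by_cases hc : ∀ i, c i ≠ 0
        · have hm : Measurable fun l : ι → ℝ => J (l, c) :=
            hJ.comp (measurable_id.prodMk measurable_const)
          show ∫⁻ l : ι → ℝ, J (l, c) ≤ ∫⁻ y : ι → ℝ, K0 (c, y)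
          rw [lint_diag hc hm, ← lintegral_const_mul' _ _ ENNReal.ofReal_ne_top]
          refine lintegral_mono fun y => ?_
          show ENNReal.ofReal (∏ i, |c i|) * S.indicator (fun p => ENNReal.ofReal (J0 p))
            ((fun i => c i * y i), c) ≤ K0 (c, y)
          by_cases hy : ∀ i, 0 < c i * y i
          · rw [indicator_of_mem (show ((fun i => c i * y i), c) ∈ S from hy)]
            have e0 : (fun i => c i * y i / c i) = y := by
              funext i; rw [mul_div_assoc, mul_div_cancel₀]; exact hc i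
            have e1 : ENNReal.ofReal (∏ i, |c i|) * ENNReal.ofReal (J0 ((fun i => c i * y i), c))
                = K0 (c, y) := by
              show _ = ENNReal.ofReal ((∏ i, |y i| ^ (b i)) * φ y) *
                ENNReal.ofReal (∏ i, gN (b i) (y i) (c i))
              rw [← ENNReal.ofReal_mul (Finset.prod_nonneg fun i _ => abs_nonneg _),
                ← ENNReal.ofReal_mul (mul_nonneg (Finset.prod_nonneg fun i _ =>
                  Real.rpow_nonneg (abs_nonneg _) _) (hφ0 _))]
              congr 1
              show (∏ i, |c i|) * ((∏ i, (c i * y i) ^ (b i - 1)) *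
                ((∏ i, c i * y i / (c i) ^ 2) * Real.exp (-(∑ i, (c i) ^ 2) / 2) *
                  φ (fun i => c i * y i / c i))) = _
              rw [e0]
              have e2 : Real.exp (-(∑ i, (c i) ^ 2) / 2) = ∏ i, Real.exp (-(c i) ^ 2 / 2) := by
                rw [← Real.exp_sum, ← Finset.sum_neg_distrib, Finset.sum_div]
              rw [e2]
              have e3 : ∀ i, |c i| * ((c i * y i) ^ (b i - 1) * ((c i * y i / (c i) ^ 2) *
                  Real.exp (-(c i) ^ 2 / 2))) = |y i| ^ (b i) * gN (b i) (y i) (c i) := by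
                intro i
                unfold gN
                rw [if_pos (hy i)]
                have hci : 0 < |c i| := abs_pos.2 (hc i)
                have hyi0 : y i ≠ 0 := by
                  intro h0; have := hy i; rw [h0, mul_zero] at this; exact lt_irrefl _ this
                have hyi : 0 < |y i| := abs_pos.2 hyi0
                have hcy : c i * y i = |c i| * |y i| := by
                  rw [← abs_mul, abs_of_pos (hy i)]
                rw [hcy, Real.mul_rpow hci.le hyi.le, ← sq_abs (c i)]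
                have h4 : |y i| ^ (b i) = |y i| ^ (b i - 1) * |y i| := by
                  rw [← Real.rpow_add_one hyi.ne']; congr 1; ring
                rw [h4]
                field_simp
              calc (∏ i, |c i|) * ((∏ i, (c i * y i) ^ (b i - 1)) *
                    ((∏ i, c i * y i / (c i) ^ 2) * (∏ i, Real.exp (-(c i) ^ 2 / 2)) * φ y))
                  = (∏ i, |c i| * ((c i * y i) ^ (b i - 1) * ((c i * y i / (c i) ^ 2) *
                    Real.exp (-(c i) ^ 2 / 2)))) * φ y := by
                    simp only [Finset.prod_mul_distrib]; ring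
                _ = (∏ i, |y i| ^ (b i) * gN (b i) (y i) (c i)) * φ y := by
                    rw [Finset.prod_congr rfl fun i _ => e3 i]
                _ = (∏ i, |y i| ^ (b i)) * φ y * ∏ i, gN (b i) (y i) (c i) := by
                    rw [Finset.prod_mul_distrib]; ring
            exact e1.le
          · rw [indicator_of_notMem (show ((fun i => c i * y i), c) ∉ S from hy), mul_zero]
            exact bot_le
        · push Not at hc
          obtain ⟨i, hi⟩ := hc
          have e1 : ∀ l : ι → ℝ, J (l, c) = 0 := by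
            intro l
            show S.indicator (fun p => ENNReal.ofReal (J0 p)) (l, c) = 0
            by_cases hl : (l, c) ∈ S
            · rw [indicator_of_mem hl]
              have : J0 (l, c) = 0 := by
                show (∏ i, (l i) ^ (b i - 1)) * ((∏ i, l i / (c i) ^ 2) *
                  Real.exp (-(∑ i, (c i) ^ 2) / 2) * φ (fun i => l i / c i)) = 0
                rw [Finset.prod_eq_zero (f := fun i => l i / (c i) ^ 2) (Finset.mem_univ i)
                  (by simp [hi])]
                ring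
              rw [this, ENNReal.ofReal_zero]
            · rw [indicator_of_notMem hl]
          show ∫⁻ l : ι → ℝ, J (l, c) ≤ ∫⁻ y : ι → ℝ, K0 (c, y)
          simp only [e1, lintegral_zero]
          exact bot_le
    _ = ∫⁻ y : ι → ℝ, ∫⁻ c : ι → ℝ, K0 (c, y) :=
        lintegral_lintegral_swap hK0.aemeasurable
    _ ≤ ∫⁻ y : ι → ℝ, (∏ i, ENNReal.ofReal (2 ^ (b i / 2 - 1) * Real.Gamma (b i / 2))) *
          ENNReal.ofReal ((∏ i, |y i| ^ (b i)) * φ y) := by
        refine lintegral_mono fun y => ?_
        show ∫⁻ c : ι → ℝ, ENNReal.ofReal ((∏ i, |y i| ^ (b i)) * φ y) *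
          ENNReal.ofReal (∏ i, gN (b i) (y i) (c i)) ≤ _
        rw [lintegral_const_mul' _ _ ENNReal.ofReal_ne_top, mul_comm]
        refine mul_le_mul_left ?_ _
        rw [lint_prod (fun i => gN (b i) (y i)) (fun i x => gN_nonneg _ _ _)
          (fun i => gN_integrable (hb i) _)]
        exact Finset.prod_le_prod' fun i _ => ENNReal.ofReal_le_ofReal (gN_integral_le (hb i) _)
    _ = _ := by
        rw [lintegral_const_mul]
        refine (Measurable.mul (Finset.measurable_fun_prod _ fun i _ => ?_) hφm).ennreal_ofReal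
        exact ((measurable_pi_apply i).abs).pow_const _

end Pool.Agent.GPI.Full
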