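import Mathlib

/-!
# Gaussian product inequality: interpolation at the roots

`∑_ε π_ε ∏_{i ∈ S} c^ε_i = [S = ∅]`, where `π_ε = ∏ λ / det (Λ + C^ε M C^ε)`.
-/

set_option autoImplicit false

open Matrix

namespace Pool.Agent.GPI

variable {ι κ : Type*} [Fintype ι] [DecidableEq ι] [Fintype κ] [DecidableEq κ]

/-- `det (Λ + N diag z)` is multi-affine in `z`. -/
theorem Interp.det_expand (lam : ι → ℝ) (N : Matrix ι ι ℝ) :
    ∃ p : Finset ι → ℝ, p ∅ = ∏ i, lam i ∧
      ∀ z : ι → ℝ, (diagonal lam + N * diagonal z).det = ∑ S, p S * ∏ i ∈ S, z i := by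
  refine ⟨fun S => detRowAlternating (S.piecewise (fun j => Nᵀ j)
    (fun j => (diagonal lam : Matrix ι ι ℝ) j)), ?_, fun z => ?_⟩
  · simp only [Finset.piecewise_empty]
    exact det_diagonal
  · rw [← det_transpose]
    have h1 : (diagonal lam + N * diagonal z)ᵀ =
        (fun j => z j • Nᵀ j) + fun j => (diagonal lam : Matrix ι ι ℝ) j := by
      ext i j
      simp only [transpose_apply, Matrix.add_apply, mul_diagonal, Pi.add_apply, Pi.smul_apply,
        smul_eq_mul]
      rw [add_comm, mul_comm]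
      congr 1
      rw [diagonal_apply, diagonal_apply]
      by_cases h : i = j
      · subst h; simp
      · rw [if_neg h, if_neg (Ne.symm h)]
    change detRowAlternating _ = _
    rw [h1]
    have h2 := (detRowAlternating (R := ℝ) (n := ι)).toMultilinearMap.map_add_univ
      (fun j => z j • Nᵀ j) (fun j => (diagonal lam : Matrix ι ι ℝ) j)
    refine h2.trans (Finset.sum_congr rfl fun S _ => ?_)
    have h3 : S.piecewise (fun j => z j • Nᵀ j) (fun j => (diagonal lam : Matrix ι ι ℝ) j) =
        S.piecewise (fun j => z j • (S.piecewise (fun j => Nᵀ j)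
          (fun j => (diagonal lam : Matrix ι ι ℝ) j)) j)
          (S.piecewise (fun j => Nᵀ j) (fun j => (diagonal lam : Matrix ι ι ℝ) j)) := by
      funext j
      by_cases hj : j ∈ S
      · rw [Finset.piecewise_eq_of_mem _ _ _ hj, Finset.piecewise_eq_of_mem _ _ _ hj,
          Finset.piecewise_eq_of_mem _ _ _ hj]
      · rw [Finset.piecewise_eq_of_notMem _ _ _ hj, Finset.piecewise_eq_of_notMem _ _ _ hj,
          Finset.piecewise_eq_of_notMem _ _ _ hj]
    rw [h3, MultilinearMap.map_piecewise_smul, smul_eq_mul, mul_comm]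
    rfl

/-- Interpolation at `2^n` nodes. -/
theorem interp (hκ : Fintype.card κ = Fintype.card (Finset ι)) (M : Matrix ι ι ℝ) (lam : ι → ℝ)
    (c : κ → ι → ℝ)
    (h1 : ∀ ε δ, ε ≠ δ → (diagonal lam + diagonal (c ε) * M * diagonal (c δ)).det = 0)
    (h2 : ∀ ε, (diagonal lam + diagonal (c ε) * M * diagonal (c ε)).det ≠ 0) (S : Finset ι) :
    ∑ ε, (∏ i, lam i) / (diagonal lam + diagonal (c ε) * M * diagonal (c ε)).det *
      ∏ i ∈ S, c ε i = if S = ∅ then 1 else 0 := by
  choose p hp0 hp using fun ε => Interp.det_expand lam (diagonal (c ε) * M)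
  let A : Matrix κ (Finset ι) ℝ := fun δ T => ∏ i ∈ T, c δ i
  let B : Matrix (Finset ι) κ ℝ := fun T ε =>
    p ε T / (diagonal lam + diagonal (c ε) * M * diagonal (c ε)).det
  have hAB : A * B = 1 := by
    ext δ ε
    rw [Matrix.mul_apply, Matrix.one_apply]
    have h3 : ∑ T, A δ T * B T ε = (∑ T, p ε T * ∏ i ∈ T, c δ i) /
        (diagonal lam + diagonal (c ε) * M * diagonal (c ε)).det := by
      rw [Finset.sum_div]
      refine Finset.sum_congr rfl fun T _ => ?_
      simp only [A, B]
      ring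
    rw [h3, ← hp]
    split_ifs with h
    · subst h
      exact div_self (h2 δ)
    · rw [h1 ε δ (Ne.symm h), zero_div]
  have hBA : B * A = 1 := (mul_eq_one_comm_of_card_eq _ _ ℝ hκ).1 hAB
  have h4 := congrFun (congrFun hBA ∅) S
  rw [Matrix.mul_apply, Matrix.one_apply] at h4
  simp only [A, B, hp0] at h4
  rw [h4]
  simp only [eq_comm (a := (∅ : Finset ι))]

/-- two different solutions of `λ/c - M c = ζ` give a zero of the determinant -/
theorem interp_det_eq_zero {M : Matrix ι ι ℝ} {lam c c' ζ : ι → ℝ} (hc : ∀ i, c i ≠ 0)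
    (hc' : ∀ i, c' i ≠ 0) (h : ∀ i, lam i / c i - (M *ᵥ c) i = ζ i)
    (h' : ∀ i, lam i / c' i - (M *ᵥ c') i = ζ i) (hne : c ≠ c') :
    (diagonal lam + diagonal c * M * diagonal c').det = 0 := by
  rw [← exists_mulVec_eq_zero_iff]
  refine ⟨fun i => (c i - c' i) / c' i, fun h0 => hne ?_, ?_⟩
  · funext i
    have h1 := congrFun h0 i
    simp only [Pi.zero_apply, div_eq_zero_iff, hc' i, or_false] at h1
    linarith
  · have h1 : diagonal c' *ᵥ (fun i => (c i - c' i) / c' i) = c - c' := by
      funext i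
      rw [mulVec_diagonal, Pi.sub_apply]
      field_simp [hc' i]
    rw [add_mulVec, ← mulVec_mulVec, ← mulVec_mulVec, h1, mulVec_sub]
    funext i
    rw [Pi.add_apply, mulVec_diagonal, mulVec_diagonal, Pi.sub_apply, Pi.zero_apply]
    have h2 : (M *ᵥ c) i - (M *ᵥ c') i = lam i / c i - lam i / c' i := by
      rw [← sub_eq_zero]
      linarith [h i, h' i]
    rw [h2]
    have h3 := hc i
    have h4 := hc' i
    field_simp
    ring

/-- the weights -/
noncomputable def wt (M : Matrix ι ι ℝ) (lam c : ι → ℝ) : ℝ :=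
  (∏ i, lam i) / (diagonal lam + diagonal c * M * diagonal c).det

/-- `∑_ε π_ε = 1` and `∑_ε π_ε c_i c_j = 0` for `i ≠ j`, hence the pointwise inequality. -/
theorem interp_sum (hκ : Fintype.card κ = Fintype.card (Finset ι)) (M : Matrix ι ι ℝ)
    (lam ζ : ι → ℝ) (c : κ → ι → ℝ) (hc : ∀ ε i, c ε i ≠ 0)
    (h : ∀ ε i, lam i / c ε i - (M *ᵥ c ε) i = ζ i) (hinj : Function.Injective c)
    (hpos : ∀ ε, 0 < wt M lam (c ε)) :
    ∑ ε, wt M lam (c ε) = 1 ∧ ∀ i j, i ≠ j → ∑ ε, wt M lam (c ε) * (c ε i * c ε j) = 0 := by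
  have h2 : ∀ ε, (diagonal lam + diagonal (c ε) * M * diagonal (c ε)).det ≠ 0 := by
    intro ε h0
    have := hpos ε
    rw [wt, h0, div_zero] at this
    exact lt_irrefl _ this
  have key := interp hκ M lam c (fun ε δ hne => interp_det_eq_zero (hc ε) (hc δ) (h ε) (h δ)
    (fun h0 => hne (hinj h0))) h2
  constructor
  · have := key ∅
    simpa [wt] using this
  · intro i j hij
    have := key {i, j}
    rw [if_neg (by simp)] at this
    simpa [wt, Finset.prod_pair hij] using this

/-- the pointwise inequality `∑_ε π_ε exp (½ ∑_{i ≠ j} M_ij c_i c_j) ≥ 1` -/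
theorem one_le_sum_wt (hκ : Fintype.card κ = Fintype.card (Finset ι)) (M : Matrix ι ι ℝ)
    (hM : ∀ i, M i i = 1) (lam ζ : ι → ℝ) (c : κ → ι → ℝ) (hc : ∀ ε i, c ε i ≠ 0)
    (h : ∀ ε i, lam i / c ε i - (M *ᵥ c ε) i = ζ i) (hinj : Function.Injective c)
    (hpos : ∀ ε, 0 < wt M lam (c ε)) :
    1 ≤ ∑ ε, wt M lam (c ε) * Real.exp ((c ε ⬝ᵥ (M *ᵥ c ε) - c ε ⬝ᵥ c ε) / 2) := by
  obtain ⟨h1, h2⟩ := interp_sum hκ M lam ζ c hc h hinj hpos
  have hexp : ∀ ε, (c ε ⬝ᵥ (M *ᵥ c ε) - c ε ⬝ᵥ c ε) / 2 =
      ∑ i, ∑ j, (if i = j then 0 else M i j / 2) * (c ε i * c ε j) := by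
    intro ε
    simp only [dotProduct, mulVec]
    rw [← Finset.sum_sub_distrib, Finset.sum_div]
    refine Finset.sum_congr rfl fun i _ => ?_
    have h3 : ∑ j, M i j * c ε j = M i i * c ε i +
        ∑ j, (if i = j then 0 else M i j) * c ε j := by
      rw [← Finset.add_sum_erase _ _ (Finset.mem_univ i),
        ← Finset.add_sum_erase _ (fun j => (if i = j then 0 else M i j) * c ε j)
          (Finset.mem_univ i), if_pos rfl, zero_mul, zero_add]
      congr 1
      refine Finset.sum_congr rfl fun j hj => ?_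
      rw [if_neg (Finset.ne_of_mem_erase hj).symm]
    rw [h3, hM i, one_mul, mul_add, add_sub_cancel_left, Finset.mul_sum, Finset.sum_div]
    refine Finset.sum_congr rfl fun j _ => ?_
    split_ifs <;> ring
  calc (1 : ℝ) = ∑ ε, wt M lam (c ε) * (1 + ∑ i, ∑ j, (if i = j then 0 else M i j / 2) *
        (c ε i * c ε j)) := by
        simp only [mul_add, mul_one, Finset.sum_add_distrib, h1]
        simp only [Finset.mul_sum]
        rw [Finset.sum_comm]
        simp only [Finset.sum_comm (s := (Finset.univ : Finset κ))]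
        have h4 : ∀ i j, ∑ ε, wt M lam (c ε) * ((if i = j then 0 else M i j / 2) *
            (c ε i * c ε j)) = 0 := by
          intro i j
          by_cases hij : i = j
          · simp [hij]
          · have h5 := h2 i j hij
            rw [if_neg hij]
            calc ∑ ε, wt M lam (c ε) * (M i j / 2 * (c ε i * c ε j)) =
                M i j / 2 * ∑ ε, wt M lam (c ε) * (c ε i * c ε j) := by
                  rw [Finset.mul_sum]
                  exact Finset.sum_congr rfl fun ε _ => by ring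
              _ = 0 := by rw [h5, mul_zero]
        simp only [h4, Finset.sum_const_zero, add_zero]
    _ ≤ _ := by
        refine Finset.sum_le_sum fun ε _ => ?_
        refine mul_le_mul_of_nonneg_left ?_ (hpos ε).le
        rw [hexp, add_comm]
        exact Real.add_one_le_exp _

end Pool.Agent.GPI
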