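import Mathlib
import Pool.Agent.GPI.Final
import Pool.Agent.GPI.Repr
import Pool.Agent.GPI.Full.Defs

/-!
# Full GPI, module F1: invertible matrices with arbitrary rows
-/

set_option autoImplicit false

open MeasureTheory ProbabilityTheory Matrix Set Filter
open scoped ENNReal Topology

namespace Pool.Agent.GPI.Full

/-- polynomial moments of the standard Gaussian -/
theorem inv_int_one (N : ℕ) : Integrable (fun x : ℝ => (1 + |x|) ^ N) (gaussianReal 0 1) := by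
  have h1 : MemLp (fun x : ℝ => 1 + |x|) (N : ℝ≥0∞) (gaussianReal 0 1) := by
    have h2 : MemLp (fun x : ℝ => |x|) (N : ℝ≥0∞) (gaussianReal 0 1) := by
      have := (memLp_id_gaussianReal' (μ := 0) (v := 1) (N : ℝ≥0∞) (by simp)).norm
      exact this
    exact MemLp.add (memLp_const (1 : ℝ)) h2
  rcases Nat.eq_zero_or_pos N with rfl | hN
  · simp
  have h3 : Integrable (fun x : ℝ => ‖(1 + |x| : ℝ)‖ ^ N) (gaussianReal 0 1) :=
    MemLp.integrable_norm_pow h1 hN.ne'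
  refine h3.congr (ae_of_all _ fun x => ?_)
  have : (0 : ℝ) ≤ 1 + |x| := by positivity
  simp only [Real.norm_eq_abs, abs_of_nonneg this]

theorem inv_int_prod (d N : ℕ) : Integrable (fun g : Fin d → ℝ => ∏ k, (1 + |g k|) ^ N) (gam d) := by
  unfold gam
  exact Integrable.fintype_prod (f := fun (_ : Fin d) (x : ℝ) => (1 + |x|) ^ N)
    (fun _ => inv_int_one N)

theorem inv_one_le_prod {κ : Type*} (s : Finset κ) (f : κ → ℝ) (h : ∀ k ∈ s, 1 ≤ f k) :
    1 ≤ ∏ k ∈ s, f k := by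
  calc (1 : ℝ) = ∏ k ∈ s, (1 : ℝ) := by simp
    _ ≤ ∏ k ∈ s, f k := Finset.prod_le_prod (fun _ _ => zero_le_one) h

/-- polynomial bound for the product of linear forms -/
theorem inv_bound {r d : ℕ} (A : Matrix (Fin r) (Fin d) ℝ) {b : Fin r → ℝ} (hb : ∀ i, 0 ≤ b i) :
    ∃ (C : ℝ) (N : ℕ), 0 ≤ C ∧ ∀ g : Fin d → ℝ,
      ∏ i, |(A *ᵥ g) i| ^ (b i) ≤ C * ∏ k, (1 + |g k|) ^ N := by
  refine ⟨∏ i, (1 + ∑ k, |A i k|) ^ (b i), ∑ i, ⌈b i⌉₊, ?_, fun g => ?_⟩
  · exact Finset.prod_nonneg fun i _ => Real.rpow_nonneg (by positivity) _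
  · set P : ℝ := ∏ k, (1 + |g k|) with hP
    have hP1 : 1 ≤ P := inv_one_le_prod _ _ (fun k _ => by linarith [abs_nonneg (g k)])
    have hgP : ∀ k, |g k| ≤ P := by
      intro k
      have h1 : P = (1 + |g k|) * ∏ j ∈ Finset.univ.erase k, (1 + |g j|) :=
        (Finset.mul_prod_erase Finset.univ _ (Finset.mem_univ k)).symm
      have h2 : 1 ≤ ∏ j ∈ Finset.univ.erase k, (1 + |g j|) :=
        inv_one_le_prod _ _ (fun k _ => by linarith [abs_nonneg (g k)])
      rw [h1]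
      nlinarith [abs_nonneg (g k)]
    have hPN : ∏ k, (1 + |g k|) ^ (∑ i, ⌈b i⌉₊) = ∏ i, P ^ ⌈b i⌉₊ := by
      rw [Finset.prod_pow, Finset.prod_pow_eq_pow_sum]
    rw [hPN, ← Finset.prod_mul_distrib]
    apply Finset.prod_le_prod (fun i _ => Real.rpow_nonneg (abs_nonneg _) _)
    intro i _
    have h3 : |(A *ᵥ g) i| ≤ (1 + ∑ k, |A i k|) * P := by
      calc |(A *ᵥ g) i| = |∑ k, A i k * g k| := rfl
        _ ≤ ∑ k, |A i k * g k| := Finset.abs_sum_le_sum_abs _ _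
        _ = ∑ k, |A i k| * |g k| := by simp_rw [abs_mul]
        _ ≤ ∑ k, |A i k| * P := Finset.sum_le_sum fun k _ =>
            mul_le_mul_of_nonneg_left (hgP k) (abs_nonneg _)
        _ = (∑ k, |A i k|) * P := by rw [Finset.sum_mul]
        _ ≤ (1 + ∑ k, |A i k|) * P := by
            apply mul_le_mul_of_nonneg_right (by linarith) (by linarith)
    have h4 : (0 : ℝ) ≤ 1 + ∑ k, |A i k| := by positivity
    calc |(A *ᵥ g) i| ^ (b i) ≤ ((1 + ∑ k, |A i k|) * P) ^ (b i) :=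
          Real.rpow_le_rpow (abs_nonneg _) h3 (hb i)
      _ = (1 + ∑ k, |A i k|) ^ (b i) * P ^ (b i) := Real.mul_rpow h4 (by linarith)
      _ ≤ (1 + ∑ k, |A i k|) ^ (b i) * P ^ ⌈b i⌉₊ := by
          apply mul_le_mul_of_nonneg_left _ (Real.rpow_nonneg h4 _)
          rw [← Real.rpow_natCast]
          exact Real.rpow_le_rpow_of_exponent_le hP1 (Nat.le_ceil _)

theorem inv_cont {r d : ℕ} (A : Matrix (Fin r) (Fin d) ℝ) {b : Fin r → ℝ} (hb : ∀ i, 0 ≤ b i) :
    Continuous fun g : Fin d → ℝ => ∏ i, |(A *ᵥ g) i| ^ (b i) := by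
  apply continuous_finsetProd
  intro i _
  apply Continuous.rpow_const _ (fun g => Or.inr (hb i))
  apply Continuous.abs
  have : (fun g : Fin d → ℝ => (A *ᵥ g) i) = fun g => ∑ k, A i k * g k := rfl
  rw [this]
  fun_prop

/-- integrability of the product -/
theorem inv_integrable {r d : ℕ} (A : Matrix (Fin r) (Fin d) ℝ) {b : Fin r → ℝ}
    (hb : ∀ i, 0 ≤ b i) :
    Integrable (fun g : Fin d → ℝ => ∏ i, |(A *ᵥ g) i| ^ (b i)) (gam d) := by
  obtain ⟨C, N, hC, h⟩ := inv_bound A hb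
  refine ((inv_int_prod d N).const_mul C).mono' (inv_cont A hb).aestronglyMeasurable
    (ae_of_all _ fun g => ?_)
  rw [Real.norm_eq_abs, abs_of_nonneg
    (Finset.prod_nonneg fun i _ => Real.rpow_nonneg (abs_nonneg _) _)]
  exact h g

/-- invertible `A`, arbitrary rows, exponents positive; the hypothesis `gpi_unit` is the
theorem `gpi_unit` of module E2 -/
theorem gpi_inv_of {d : ℕ}
    (gpi_unit : ∀ {A : Matrix (Fin d) (Fin d) ℝ} (_ : A.det ≠ 0) (_ : ∀ i, ∑ k, A i k ^ 2 = 1)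
      {b : Fin d → ℝ} (_ : ∀ i, 0 < b i), ∏ i, ENNReal.ofReal (km (b i / 2)) ≤
        ∫⁻ g, ENNReal.ofReal (∏ i, |(A *ᵥ g) i| ^ (b i)) ∂(gam d))
    {A : Matrix (Fin d) (Fin d) ℝ} (hA : A.det ≠ 0)
    {b : Fin d → ℝ} (hb : ∀ i, 0 < b i) :
    ∏ i, ((∑ k, A i k ^ 2) ^ (b i / 2) * km (b i / 2)) ≤ ∫ g, ∏ i, |(A *ᵥ g) i| ^ (b i) ∂(gam d) := by
  -- row norms
  set r : Fin d → ℝ := fun i => √(∑ k, A i k ^ 2) with hr
  have hs : ∀ i, 0 < ∑ k, A i k ^ 2 := by
    intro i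
    by_contra hc
    apply hA
    have h0 : ∑ k, A i k ^ 2 = 0 := le_antisymm (not_lt.1 hc) (by positivity)
    rw [Finset.sum_eq_zero_iff_of_nonneg (fun k _ => sq_nonneg _)] at h0
    exact Matrix.det_eq_zero_of_row_eq_zero i fun k => by
      have := h0 k (Finset.mem_univ k)
      exact pow_eq_zero_iff (two_ne_zero) |>.1 this
  have hr0 : ∀ i, 0 < r i := fun i => Real.sqrt_pos.2 (hs i)
  set A' : Matrix (Fin d) (Fin d) ℝ := diagonal (fun i => (r i)⁻¹) * A with hA'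
  have hdet : A'.det ≠ 0 := by
    rw [hA', det_mul, det_diagonal]
    exact mul_ne_zero (Finset.prod_ne_zero_iff.2 fun i _ => inv_ne_zero (hr0 i).ne') hA
  have hent : ∀ i k, A' i k = (r i)⁻¹ * A i k := fun i k => by
    rw [hA', diagonal_mul]
  have hunit : ∀ i, ∑ k, A' i k ^ 2 = 1 := by
    intro i
    simp_rw [hent, mul_pow]
    rw [← Finset.mul_sum, inv_pow, hr, Real.sq_sqrt (hs i).le, inv_mul_cancel₀ (hs i).ne']
  have hvec : ∀ g i, (A' *ᵥ g) i = (r i)⁻¹ * (A *ᵥ g) i := by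
    intro g i
    simp only [Matrix.mulVec, dotProduct]
    rw [Finset.mul_sum]
    exact Finset.sum_congr rfl fun k _ => by rw [hent]; ring
  have hmain := gpi_unit hdet hunit hb
  have hint := inv_integrable A' (fun i => (hb i).le)
  rw [← ofReal_integral_eq_lintegral_ofReal hint
    (ae_of_all _ fun g => Finset.prod_nonneg fun i _ => Real.rpow_nonneg (abs_nonneg _) _),
    ← ENNReal.ofReal_prod_of_nonneg (fun i _ => km_nonneg (by linarith [hb i]))] at hmain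
  have hnn : 0 ≤ ∫ g, ∏ i, |(A' *ᵥ g) i| ^ (b i) ∂(gam d) :=
    integral_nonneg fun g => Finset.prod_nonneg fun i _ => Real.rpow_nonneg (abs_nonneg _) _
  rw [ENNReal.ofReal_le_ofReal_iff hnn] at hmain
  have hpt : ∀ g : Fin d → ℝ, ∏ i, |(A *ᵥ g) i| ^ (b i) =
      (∏ i, (∑ k, A i k ^ 2) ^ (b i / 2)) * ∏ i, |(A' *ᵥ g) i| ^ (b i) := by
    intro g
    rw [← Finset.prod_mul_distrib]
    refine Finset.prod_congr rfl fun i _ => ?_
    have h1 : (∑ k, A i k ^ 2) ^ (b i / 2) = (r i) ^ (b i) := by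
      rw [hr]
      simp only
      rw [Real.sqrt_eq_rpow, ← Real.rpow_mul (hs i).le]
      congr 1
      ring
    rw [h1, hvec, abs_mul, abs_of_pos (inv_pos.2 (hr0 i)),
      Real.mul_rpow (inv_pos.2 (hr0 i)).le (abs_nonneg _), Real.inv_rpow (hr0 i).le, ← mul_assoc,
      mul_inv_cancel₀ (Real.rpow_pos_of_pos (hr0 i) _).ne', one_mul]
  simp_rw [hpt]
  rw [integral_const_mul, Finset.prod_mul_distrib]
  exact mul_le_mul_of_nonneg_left hmain
    (Finset.prod_nonneg fun i _ => Real.rpow_nonneg (hs i).le _)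

end Pool.Agent.GPI.Full
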