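import Pool.Agent.GPI.Full.Roots

/-!
# Gaussian product inequality: the pointwise inequality
-/

set_option autoImplicit false

open Matrix MeasureTheory Set Filter Topology
open scoped ENNReal

namespace Pool.Agent.GPI

variable {ι : Type*} [Fintype ι] [DecidableEq ι]

/-- minus the derivative matrix of `fm` -/
noncomputable def Jm (M : Matrix ι ι ℝ) (lam c : ι → ℝ) : Matrix ι ι ℝ :=
  M + diagonal fun i => lam i / c i ^ 2

omit [Fintype ι] in
theorem Jm_posDef {M : Matrix ι ι ℝ} (hM : M.PosDef) {lam : ι → ℝ} (hlam : ∀ i, 0 < lam i)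
    {c : ι → ℝ} (hc : ∀ i, c i ≠ 0) : (Jm M lam c).PosDef := by
  refine hM.add (PosDef.diagonal fun i => ?_)
  have := hlam i
  have := hc i
  positivity

theorem det_eq_Jm (M : Matrix ι ι ℝ) (lam : ι → ℝ) {c : ι → ℝ} (hc : ∀ i, c i ≠ 0) :
    (diagonal lam + diagonal c * M * diagonal c).det = (∏ i, c i) ^ 2 * (Jm M lam c).det := by
  have h1 : diagonal lam + diagonal c * M * diagonal c = diagonal c * Jm M lam c * diagonal c := by
    rw [Jm, Matrix.mul_add, Matrix.add_mul, add_comm]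
    congr 1
    rw [diagonal_mul_diagonal, diagonal_mul_diagonal]
    congr 1
    funext i
    have := hc i
    field_simp
  rw [h1, det_mul, det_mul, det_diagonal]
  ring

theorem wt_eq {M : Matrix ι ι ℝ} (hM : M.PosDef) {lam : ι → ℝ} (hlam : ∀ i, 0 < lam i)
    {c : ι → ℝ} (hc : ∀ i, c i ≠ 0) :
    0 < wt M lam c ∧ ∏ i, lam i / c i ^ 2 = (Jm M lam c).det * wt M lam c := by
  have h1 : 0 < (Jm M lam c).det := (Jm_posDef hM hlam hc).det_pos
  have h2 : (∏ i, c i) ≠ 0 := Finset.prod_ne_zero_iff.2 fun i _ => hc i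
  have h3 : 0 < (∏ i, c i) ^ 2 := by positivity
  have h4 : 0 < ∏ i, lam i := Finset.prod_pos fun i _ => hlam i
  rw [wt, det_eq_Jm M lam hc]
  refine ⟨by positivity, ?_⟩
  rw [Finset.prod_div_distrib, Finset.prod_pow]
  field_simp

theorem fm_hasFDerivAt (M : Matrix ι ι ℝ) (lam : ι → ℝ) {c : ι → ℝ} (hc : ∀ i, c i ≠ 0) :
    HasFDerivAt (fm M lam) (-(Matrix.toLin' (Jm M lam c)).toContinuousLinearMap) c := by
  rw [hasFDerivAt_pi']
  intro i
  have h1 : HasFDerivAt (fun c : ι → ℝ => c i) (ContinuousLinearMap.proj (R := ℝ) i) c :=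
    (ContinuousLinearMap.proj (R := ℝ) (φ := fun _ : ι => ℝ) i).hasFDerivAt
  have h2 : HasFDerivAt (fun c : ι → ℝ => (M *ᵥ c) i)
      ((ContinuousLinearMap.proj (R := ℝ) (φ := fun _ : ι => ℝ) i).comp
        (Matrix.toLin' M).toContinuousLinearMap) c :=
    ((ContinuousLinearMap.proj (R := ℝ) (φ := fun _ : ι => ℝ) i).comp
        (Matrix.toLin' M).toContinuousLinearMap).hasFDerivAt
  have h3 := (((hasDerivAt_inv (hc i)).comp_hasFDerivAt c h1).const_mul (lam i)).sub h2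
  refine (h3.congr_fderiv ?_).congr_of_eventuallyEq (Filter.Eventually.of_forall fun c => ?_)
  · ext v
    simp [Jm, mulVec_diagonal]
    ring
  · simp [fm, div_eq_mul_inv]

theorem abs_det_fm (M : Matrix ι ι ℝ) (lam c : ι → ℝ) :
    |(-(Matrix.toLin' (Jm M lam c)).toContinuousLinearMap : (ι → ℝ) →L[ℝ] (ι → ℝ)).det| =
      |(Jm M lam c).det| := by
  have h1 : (-(Matrix.toLin' (Jm M lam c)).toContinuousLinearMap : (ι → ℝ) →L[ℝ] (ι → ℝ)).det =
      (-(Jm M lam c)).det := by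
    rw [← LinearMap.det_toLin']
    rw [map_neg]
    rfl
  rw [h1, det_neg, abs_mul, abs_pow, abs_neg, abs_one, one_pow, one_mul]

theorem isOpen_orth (S : Finset ι) : IsOpen (orth S) := by
  have h1 : orth S = ⋂ i, {c : ι → ℝ | 0 < sg S i * c i} := by
    ext c
    simp [orth]
  rw [h1]
  refine isOpen_iInter_of_finite fun i => ?_
  exact isOpen_lt continuous_const (continuous_const.mul (continuous_apply i))

omit [Fintype ι] in
theorem orth_disjoint {S T : Finset ι} (h : S ≠ T) : Disjoint (orth S) (orth T) := by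
  rw [Set.disjoint_left]
  intro c hS hT
  apply h
  ext i
  have h1 := hS i
  have h2 := hT i
  unfold sg at h1 h2
  by_cases hi : i ∈ S <;> by_cases hj : i ∈ T
  · simp [hi, hj]
  · rw [if_pos hi] at h1
    rw [if_neg hj] at h2
    linarith
  · rw [if_neg hi] at h1
    rw [if_pos hj] at h2
    linarith
  · simp [hi, hj]

/-- the roots depend continuously on `ζ` -/
theorem root_continuous {M : Matrix ι ι ℝ} (hM : M.PosDef) {lam : ι → ℝ} (hlam : ∀ i, 0 < lam i)
    {S : Finset ι} {r : (ι → ℝ) → ι → ℝ} (hr : ∀ ζ, r ζ ∈ orth S) (hrf : ∀ ζ, fm M lam (r ζ) = ζ) :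
    Continuous r := by
  obtain ⟨m, hm, hmM⟩ := exists_coercive hM
  have key : ∀ ζ ζ' i, |r ζ' i - r ζ i| ≤ √((ζ' - ζ) ⬝ᵥ (ζ' - ζ)) / m := by
    intro ζ ζ' i
    have h1 := fm_lip hlam hm hmM (hr ζ') (hr ζ)
    rw [hrf, hrf] at h1
    have h2 : (r ζ' i - r ζ i) ^ 2 ≤ (r ζ' - r ζ) ⬝ᵥ (r ζ' - r ζ) := by
      rw [dotProduct, sq]
      exact Finset.single_le_sum (f := fun i => (r ζ' - r ζ) i * (r ζ' - r ζ) i)
        (fun i _ => mul_self_nonneg _) (Finset.mem_univ i)
    rw [le_div_iff₀ hm]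
    refine Real.le_sqrt_of_sq_le ?_
    rw [mul_pow, sq_abs, mul_comm]
    exact (mul_le_mul_of_nonneg_left h2 (sq_nonneg m)).trans h1
  rw [continuous_pi_iff]
  intro i
  rw [continuous_iff_continuousAt]
  intro ζ
  rw [ContinuousAt, tendsto_iff_dist_tendsto_zero]
  refine squeeze_zero (fun _ => dist_nonneg) (fun ζ' => key ζ ζ' i) ?_
  have h1 : Continuous fun ζ' : ι → ℝ => √((ζ' - ζ) ⬝ᵥ (ζ' - ζ)) / m := by
    simp only [dotProduct]
    fun_prop
  have h2 := h1.tendsto ζ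
  simpa using h2

namespace Full

theorem pointwise {M : Matrix ι ι ℝ} (hM : M.PosDef) (hd : ∀ i, M i i = 1) {l : ι → ℝ}
    (hl : ∀ i, 0 < l i) {φ : (ι → ℝ) → ℝ} (hφm : Measurable φ) (hφ0 : ∀ x, 0 ≤ φ x)
    (hφ : ∀ z c, φ (z + M *ᵥ c) = φ z * Real.exp (-(c ⬝ᵥ z) - (c ⬝ᵥ M *ᵥ c) / 2)) :
    ENNReal.ofReal (Real.exp (-∑ i, l i)) * ∫⁻ z, ENNReal.ofReal (φ z) ≤
      ∫⁻ c : ι → ℝ, ENNReal.ofReal ((∏ i, l i / (c i) ^ 2) * Real.exp (-(∑ i, (c i) ^ 2) / 2) *
        φ (fun i => l i / c i)) := by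
  choose r hr hrf using fun (S : Finset ι) ζ => exists_root hM hl S ζ
  have hrne : ∀ S ζ i, r S ζ i ≠ 0 := fun S ζ i => orth_ne (hr S ζ) i
  have hrc : ∀ S, Continuous (r S) := fun S => root_continuous hM hl (hr S) (hrf S)
  set H : (ι → ℝ) → ℝ := fun c => (∏ i, l i / (c i) ^ 2) * Real.exp (-(∑ i, (c i) ^ 2) / 2) *
        φ (fun i => l i / c i) with hH
  set G : Finset ι → (ι → ℝ) → ℝ := fun S ζ => φ ζ * (Real.exp (-∑ i, l i) *
    (wt M l (r S ζ) * Real.exp ((r S ζ ⬝ᵥ (M *ᵥ r S ζ) - r S ζ ⬝ᵥ r S ζ) / 2))) with hG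
  -- measurability
  have hGm : ∀ S, Measurable fun ζ => ENNReal.ofReal (G S ζ) := by
    intro S
    refine ENNReal.measurable_ofReal.comp (hφm.mul ?_)
    have h1 : Continuous fun ζ => wt M l (r S ζ) := by
      unfold wt
      refine continuous_const.div ?_ fun ζ => ?_
      · refine Continuous.matrix_det ?_
        refine continuous_const.add (((hrc S).matrix_diagonal.matrix_mul continuous_const).matrix_mul
          (hrc S).matrix_diagonal)
      · rw [det_eq_Jm M l (hrne S ζ)]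
        have h2 := (Jm_posDef hM hl (hrne S ζ)).det_pos
        have h3 : (∏ i, r S ζ i) ≠ 0 := Finset.prod_ne_zero_iff.2 fun i _ => hrne S ζ i
        positivity
    have h2 : Continuous fun ζ => Real.exp ((r S ζ ⬝ᵥ (M *ᵥ r S ζ) - r S ζ ⬝ᵥ r S ζ) / 2) := by
      refine Real.continuous_exp.comp (Continuous.div_const (Continuous.sub ?_ ?_) 2)
      · exact (hrc S).dotProduct (continuous_const.matrix_mulVec (hrc S))
      · exact (hrc S).dotProduct (hrc S)
    exact (continuous_const.mul (h1.mul h2)).measurable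
  -- change of variables on the orthants
  have hcv : ∀ S, ∫⁻ c in orth S, ENNReal.ofReal (H c) = ∫⁻ ζ, ENNReal.ofReal (G S ζ) := by
    intro S
    have h1 := lintegral_image_eq_lintegral_abs_det_fderiv_mul volume (isOpen_orth S).measurableSet
      (fun c hc => (fm_hasFDerivAt M l (orth_ne hc)).hasFDerivWithinAt) (fm_injOn hM hl S)
      (fun ζ => ENNReal.ofReal (G S ζ))
    have h2 : fm M l '' orth S = univ := by
      rw [eq_univ_iff_forall]
      exact fun ζ => ⟨r S ζ, hr S ζ, hrf S ζ⟩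
    rw [h2, Measure.restrict_univ] at h1
    rw [h1]
    refine setLIntegral_congr_fun (isOpen_orth S).measurableSet fun c hc => ?_
    have hcne := orth_ne hc
    have h3 : r S (fm M l c) = c := fm_injOn hM hl S (hr S _) hc (hrf S _)
    have h4 := (Jm_posDef hM hl hcne).det_pos
    rw [abs_det_fm, abs_of_pos h4, ← ENNReal.ofReal_mul h4.le]
    congr 1
    simp only [hG, hH, h3]
    have h5 : (fun i => l i / c i) = fm M l c + M *ᵥ c := by
      funext i
      rw [Pi.add_apply, fm]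
      ring
    have h6 : c ⬝ᵥ fm M l c = ∑ i, l i - c ⬝ᵥ (M *ᵥ c) := by
      rw [dotProduct, dotProduct, ← Finset.sum_sub_distrib]
      refine Finset.sum_congr rfl fun i _ => ?_
      rw [fm]
      have := hcne i
      field_simp
    have h7 : ∑ i, c i ^ 2 = c ⬝ᵥ c := by
      rw [dotProduct]
      exact Finset.sum_congr rfl fun i _ => sq _
    rw [h5, hφ, (wt_eq hM hl hcne).2, h6, h7]
    have h8 : Real.exp (-(c ⬝ᵥ c) / 2) * Real.exp (-(∑ i, l i - c ⬝ᵥ M *ᵥ c) -
        c ⬝ᵥ M *ᵥ c / 2) = Real.exp (-∑ i, l i) * Real.exp ((c ⬝ᵥ M *ᵥ c - c ⬝ᵥ c) / 2) := by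
      rw [← Real.exp_add, ← Real.exp_add]
      congr 1
      ring
    calc (Jm M l c).det * wt M l c * Real.exp (-(c ⬝ᵥ c) / 2) * (φ (fm M l c) *
          Real.exp (-(∑ i, l i - c ⬝ᵥ M *ᵥ c) - c ⬝ᵥ M *ᵥ c / 2)) =
        (Jm M l c).det * wt M l c * φ (fm M l c) * (Real.exp (-(c ⬝ᵥ c) / 2) *
          Real.exp (-(∑ i, l i - c ⬝ᵥ M *ᵥ c) - c ⬝ᵥ M *ᵥ c / 2)) := by ring
      _ = _ := by rw [h8]; ring
  -- sum over the orthants
  have hsum : ∑ S, ∫⁻ c in orth S, ENNReal.ofReal (H c) ≤ ∫⁻ c, ENNReal.ofReal (H c) := by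
    have h1 := lintegral_iUnion (μ := volume) (fun S => (isOpen_orth S).measurableSet)
      (fun S T h => orth_disjoint h) (fun c => ENNReal.ofReal (H c))
    rw [tsum_fintype] at h1
    rw [← h1]
    exact setLIntegral_le_lintegral _ _
  refine le_trans ?_ hsum
  simp only [hcv]
  rw [← lintegral_finsetSum _ (fun S _ => hGm S), ← lintegral_const_mul']
  · refine lintegral_mono fun ζ => ?_
    have h1 := one_le_sum_wt (κ := Finset ι) rfl M hd l ζ (fun S => r S ζ) (fun S => hrne S ζ)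
      (fun S i => congrFun (hrf S ζ) i) (fun S T h => by
        by_contra hne
        have h' : r S ζ = r T ζ := h
        have h2 := hr T ζ
        rw [← h'] at h2
        exact (Set.disjoint_left.1 (orth_disjoint hne)) (hr S ζ) h2)
      (fun S => (wt_eq hM hl (hrne S ζ)).1)
    have hGpos : ∀ S ∈ (Finset.univ : Finset (Finset ι)), 0 ≤ G S ζ := by
      intro S _
      have h2 := (wt_eq hM hl (hrne S ζ)).1
      have h3 := hφ0 ζ
      simp only [hG]
      positivity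
    rw [← ENNReal.ofReal_sum_of_nonneg hGpos, ← ENNReal.ofReal_mul (Real.exp_pos _).le]
    refine ENNReal.ofReal_le_ofReal ?_
    simp only [hG]
    rw [← Finset.mul_sum, ← Finset.mul_sum]
    have h2 : 0 ≤ φ ζ * Real.exp (-∑ i, l i) := mul_nonneg (hφ0 ζ) (Real.exp_pos _).le
    calc Real.exp (-∑ i, l i) * φ ζ = φ ζ * Real.exp (-∑ i, l i) * 1 := by ring
      _ ≤ φ ζ * Real.exp (-∑ i, l i) * _ := mul_le_mul_of_nonneg_left h1 h2
      _ = _ := by ring
  · exact ENNReal.ofReal_ne_top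

end Full

end Pool.Agent.GPI
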