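import Pool.Agent.GPI.Full.Interp

/-!
# Gaussian product inequality: the roots of `λ/c - M c = ζ` in the orthants
-/

set_option autoImplicit false

open Matrix Filter Topology

namespace Pool.Agent.GPI

variable {ι : Type*} [Fintype ι] [DecidableEq ι]

section

omit [Fintype ι]

/-- sign vectors -/
def sg (S : Finset ι) (i : ι) : ℝ := if i ∈ S then -1 else 1

theorem sg_mul_self (S : Finset ι) (i : ι) : sg S i * sg S i = 1 := by
  unfold sg
  split_ifs <;> norm_num

theorem sg_ne (S : Finset ι) (i : ι) : sg S i ≠ 0 := by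
  unfold sg
  split_ifs <;> norm_num

/-- the open orthants -/
def orth (S : Finset ι) : Set (ι → ℝ) := {c | ∀ i, 0 < sg S i * c i}


theorem orth_ne {S : Finset ι} {c : ι → ℝ} (hc : c ∈ orth S) (i : ι) : c i ≠ 0 := by
  intro h
  have := hc i
  rw [h, mul_zero] at this
  exact lt_irrefl _ this

theorem orth_mul_pos {S : Finset ι} {c c' : ι → ℝ} (hc : c ∈ orth S) (hc' : c' ∈ orth S) (i : ι) :
    0 < c i * c' i := by
  have h1 := mul_pos (hc i) (hc' i)
  have h2 : sg S i * c i * (sg S i * c' i) = (sg S i * sg S i) * (c i * c' i) := by ring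
  rwa [h2, sg_mul_self, one_mul] at h1

end

/-- the map `c ↦ λ/c - M c` -/
noncomputable def fm (M : Matrix ι ι ℝ) (lam c : ι → ℝ) : ι → ℝ := fun i => lam i / c i - (M *ᵥ c) i

/-- coercivity -/
theorem exists_coercive {M : Matrix ι ι ℝ} (hM : M.PosDef) :
    ∃ m : ℝ, 0 < m ∧ ∀ x : ι → ℝ, m * (x ⬝ᵥ x) ≤ x ⬝ᵥ (M *ᵥ x) := by
  rcases isEmpty_or_nonempty ι with h | h
  · exact ⟨1, one_pos, fun x => by simp [dotProduct]⟩
  have hcont : Continuous fun x : EuclideanSpace ℝ ι => x.ofLp ⬝ᵥ (M *ᵥ x.ofLp) := by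
    fun_prop
  obtain ⟨i₀⟩ := h
  have hne : (Metric.sphere (0 : EuclideanSpace ℝ ι) 1).Nonempty :=
    ⟨EuclideanSpace.single i₀ 1, by simp⟩
  obtain ⟨x₀, hx₀, hmin⟩ := (isCompact_sphere (0 : EuclideanSpace ℝ ι) 1).exists_isMinOn hne
    hcont.continuousOn
  have hx0 : x₀.ofLp ≠ 0 := by
    intro h0
    have h1 : x₀ = 0 := by
      ext i
      exact congrFun h0 i
    rw [h1] at hx₀
    simp at hx₀
  have hpos : 0 < x₀.ofLp ⬝ᵥ (M *ᵥ x₀.ofLp) := by
    have := hM.dotProduct_mulVec_pos hx0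
    simpa using this
  refine ⟨_, hpos, fun x => ?_⟩
  by_cases hx : x = 0
  · simp [hx]
  set y : EuclideanSpace ℝ ι := WithLp.toLp 2 x with hy
  have hyn : y ≠ 0 := by
    intro h0
    apply hx
    funext i
    have := congrArg (fun z : EuclideanSpace ℝ ι => z.ofLp i) h0
    simpa [hy] using this
  have hn : 0 < ‖y‖ := norm_pos_iff.2 hyn
  have h1 := hmin (a := ‖y‖⁻¹ • y) (by
    rw [mem_sphere_zero_iff_norm, norm_smul, norm_inv, norm_norm, inv_mul_cancel₀ hn.ne'])
  have h2 : (‖y‖⁻¹ • y).ofLp = ‖y‖⁻¹ • x := rfl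
  have h3 : ‖y‖ ^ 2 = x ⬝ᵥ x := by
    rw [EuclideanSpace.norm_sq_eq]
    simp [dotProduct, hy, sq]
  simp only [Set.mem_ofPred_eq, h2, mulVec_smul, dotProduct_smul, smul_dotProduct, smul_eq_mul] at h1
  have h4 := mul_le_mul_of_nonneg_left h1 (sq_nonneg ‖y‖)
  rw [h3] at h4
  calc _ = x ⬝ᵥ x * (x₀.ofLp ⬝ᵥ (M *ᵥ x₀.ofLp)) := mul_comm _ _
    _ ≤ x ⬝ᵥ x * (‖y‖⁻¹ * (‖y‖⁻¹ * x ⬝ᵥ (M *ᵥ x))) := h4
    _ = x ⬝ᵥ (M *ᵥ x) := by
        rw [← h3]
        field_simp

/-- monotonicity -/
theorem fm_mono {M : Matrix ι ι ℝ} {lam : ι → ℝ} (hlam : ∀ i, 0 < lam i) {S : Finset ι}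
    {c c' : ι → ℝ} (hc : c ∈ orth S) (hc' : c' ∈ orth S) :
    (c - c') ⬝ᵥ (M *ᵥ (c - c')) + (c - c') ⬝ᵥ (fm M lam c - fm M lam c') ≤ 0 := by
  have h1 : (c - c') ⬝ᵥ (M *ᵥ (c - c')) + (c - c') ⬝ᵥ (fm M lam c - fm M lam c') =
      ∑ i, (c i - c' i) * (lam i / c i - lam i / c' i) := by
    rw [← dotProduct_add, dotProduct]
    refine Finset.sum_congr rfl fun i _ => ?_
    simp only [Pi.sub_apply, Pi.add_apply, fm, mulVec_sub]
    ring
  rw [h1]
  refine Finset.sum_nonpos fun i _ => ?_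
  have h2 := orth_mul_pos hc hc' i
  have h3 := orth_ne hc i
  have h4 := orth_ne hc' i
  have h5 : (c i - c' i) * (lam i / c i - lam i / c' i) =
      -(lam i * (c i - c' i) ^ 2 / (c i * c' i)) := by
    field_simp
    ring
  rw [h5, neg_nonpos]
  have := hlam i
  positivity

theorem fm_injOn {M : Matrix ι ι ℝ} (hM : M.PosDef) {lam : ι → ℝ} (hlam : ∀ i, 0 < lam i)
    (S : Finset ι) : Set.InjOn (fm M lam) (orth S) := by
  intro c hc c' hc' h
  by_contra hne
  have h1 := fm_mono (M := M) hlam hc hc'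
  rw [h, sub_self, dotProduct_zero, add_zero] at h1
  have h2 := hM.dotProduct_mulVec_pos (sub_ne_zero.2 hne)
  simp only [star_trivial] at h2
  linarith

theorem fm_lip {M : Matrix ι ι ℝ} {lam : ι → ℝ} (hlam : ∀ i, 0 < lam i) {S : Finset ι} {m : ℝ}
    (hm : 0 < m) (hmM : ∀ x : ι → ℝ, m * (x ⬝ᵥ x) ≤ x ⬝ᵥ (M *ᵥ x)) {c c' : ι → ℝ}
    (hc : c ∈ orth S) (hc' : c' ∈ orth S) :
    m ^ 2 * ((c - c') ⬝ᵥ (c - c')) ≤
      (fm M lam c - fm M lam c') ⬝ᵥ (fm M lam c - fm M lam c') := by
  have h1 := fm_mono (M := M) hlam hc hc'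
  have h2 := hmM (c - c')
  set x := c - c'
  set z := fm M lam c - fm M lam c'
  have h3 : 0 ≤ (m • x + z) ⬝ᵥ (m • x + z) := by
    rw [dotProduct]
    exact Finset.sum_nonneg fun i _ => mul_self_nonneg _
  simp only [add_dotProduct, dotProduct_add, smul_dotProduct, dotProduct_smul, smul_eq_mul] at h3
  rw [dotProduct_comm z x] at h3
  nlinarith

/-- elementary lower bound -/
theorem aux_lower {m z l a : ℝ} (hm : 0 < m) (ha0 : 0 < a) (hal : a ≤ l) (ha1 : a ≤ 1) (hz : 0 ≤ z) :
    ∃ C : ℝ, ∀ t : ℝ, a * |t| - C ≤ m / 2 * Real.exp t ^ 2 - z * Real.exp t - l * t := by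
  refine ⟨z + (z + l + 1) ^ 2 / (2 * m), fun t => ?_⟩
  have hC : 0 ≤ (z + l + 1) ^ 2 / (2 * m) := by positivity
  have he := Real.exp_pos t
  rcases le_total t 0 with ht | ht
  · rw [abs_of_nonpos ht]
    have h1 : Real.exp t ≤ 1 := Real.exp_le_one_iff.2 ht
    have h2 : z * Real.exp t ≤ z * 1 := mul_le_mul_of_nonneg_left h1 hz
    have h3 : a * -t ≤ l * -t := mul_le_mul_of_nonneg_right hal (by linarith)
    have h4 : 0 ≤ m / 2 * Real.exp t ^ 2 := by positivity
    linarith
  · rw [abs_of_nonneg ht]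
    have h1 : t ≤ Real.exp t := by linarith [Real.add_one_le_exp t]
    have h2 : a * t ≤ 1 * Real.exp t := mul_le_mul ha1 h1 ht zero_le_one
    have h3 : l * t ≤ l * Real.exp t := mul_le_mul_of_nonneg_left h1 (by linarith)
    have h4 : 0 ≤ m / 2 * (Real.exp t - (z + l + 1) / m) ^ 2 := by positivity
    have h5 : m / 2 * (Real.exp t - (z + l + 1) / m) ^ 2 =
        m / 2 * Real.exp t ^ 2 - (z + l + 1) * Real.exp t + (z + l + 1) ^ 2 / (2 * m) := by
      field_simp
      ring
    rw [h5] at h4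
    linarith

/-- existence of the root in the positive orthant -/
theorem exists_root_pos {M : Matrix ι ι ℝ} (hM : M.PosDef) {lam : ι → ℝ} (hlam : ∀ i, 0 < lam i)
    (ζ : ι → ℝ) : ∃ c : ι → ℝ, (∀ i, 0 < c i) ∧ fm M lam c = ζ := by
  rcases isEmpty_or_nonempty ι with hE | hne
  · exact ⟨fun i => hE.elim i, fun i => hE.elim i, funext fun i => hE.elim i⟩
  obtain ⟨m, hm, hmM⟩ := exists_coercive hM
  let F : (ι → ℝ) → ℝ := fun t => (fun i => Real.exp (t i)) ⬝ᵥ (M *ᵥ fun i => Real.exp (t i)) / 2 +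
    ζ ⬝ᵥ (fun i => Real.exp (t i)) - ∑ i, lam i * t i
  have hFc : Continuous F := by
    simp only [F, dotProduct, mulVec]
    fun_prop
  -- coercivity of `F`
  obtain ⟨a, ha0, ha1, hal⟩ : ∃ a : ℝ, 0 < a ∧ a ≤ 1 ∧ ∀ i, a ≤ lam i := by
    refine ⟨min 1 (Finset.univ.inf' Finset.univ_nonempty lam), ?_, min_le_left _ _, fun i => ?_⟩
    · refine lt_min one_pos ?_
      rw [Finset.lt_inf'_iff]
      exact fun i _ => hlam i
    · exact (min_le_right _ _).trans (Finset.inf'_le _ (Finset.mem_univ i))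
  choose C hC using fun i => aux_lower (z := |ζ i|) hm ha0 (hal i) ha1 (abs_nonneg _)
  have hlow : ∀ t, a * ‖t‖ - ∑ i, C i ≤ F t := by
    intro t
    have h1 : ∑ i, (a * |t i| - C i) ≤ F t := by
      have h2 := hmM fun i => Real.exp (t i)
      have h3 : ∑ i, (a * |t i| - C i) ≤
          ∑ i, (m / 2 * Real.exp (t i) ^ 2 - |ζ i| * Real.exp (t i) - lam i * t i) :=
        Finset.sum_le_sum fun i _ => hC i (t i)
      have h4 : ∑ i, (m / 2 * Real.exp (t i) ^ 2 - |ζ i| * Real.exp (t i) - lam i * t i) =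
          m * ((fun i => Real.exp (t i)) ⬝ᵥ fun i => Real.exp (t i)) / 2 -
            ∑ i, |ζ i| * Real.exp (t i) - ∑ i, lam i * t i := by
        rw [Finset.sum_sub_distrib, Finset.sum_sub_distrib, dotProduct, Finset.mul_sum,
          Finset.sum_div]
        congr 2
        refine Finset.sum_congr rfl fun i _ => ?_
        ring
      have h5 : -∑ i, |ζ i| * Real.exp (t i) ≤ ζ ⬝ᵥ fun i => Real.exp (t i) := by
        rw [dotProduct, ← Finset.sum_neg_distrib]
        refine Finset.sum_le_sum fun i _ => ?_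
        have h6 := neg_abs_le (ζ i)
        have h7 := Real.exp_pos (t i)
        nlinarith
      simp only [F]
      linarith
    have h2 : a * ‖t‖ ≤ ∑ i, a * |t i| := by
      rw [← Finset.mul_sum]
      refine mul_le_mul_of_nonneg_left ?_ ha0.le
      rw [pi_norm_le_iff_of_nonneg (Finset.sum_nonneg fun i _ => abs_nonneg _)]
      intro i
      exact Finset.single_le_sum (f := fun i => |t i|) (fun i _ => abs_nonneg _) (Finset.mem_univ i)
    rw [Finset.sum_sub_distrib] at h1
    linarith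
  have hFt : Tendsto F (cocompact _) atTop := by
    refine tendsto_atTop_mono hlow ?_
    exact tendsto_atTop_add_const_right _ _
      ((tendsto_norm_cocompact_atTop (E := ι → ℝ)).const_mul_atTop ha0)
  obtain ⟨t, ht⟩ := hFc.exists_forall_le hFt
  refine ⟨fun i => Real.exp (t i), fun i => Real.exp_pos _, ?_⟩
  funext i
  set x : ι → ℝ := fun i => Real.exp (t i) with hx
  have hxi : 0 < x i := Real.exp_pos _
  -- the restriction to the `i`-th coordinate line
  let g : ℝ → ℝ := fun s => x i * (Real.exp s - 1) * ((M *ᵥ x) i + ζ i) +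
    (x i * (Real.exp s - 1)) ^ 2 * M i i / 2 - lam i * s
  have hsym : ∀ v w : ι → ℝ, v ⬝ᵥ (M *ᵥ w) = w ⬝ᵥ (M *ᵥ v) := by
    intro v w
    have hT : Mᵀ = M := by
      have := hM.isHermitian
      rwa [IsHermitian, conjTranspose_eq_transpose_of_trivial] at this
    calc v ⬝ᵥ (M *ᵥ w) = (Mᵀ *ᵥ v) ⬝ᵥ w := by rw [mulVec_transpose, dotProduct_mulVec]
      _ = w ⬝ᵥ (M *ᵥ v) := by rw [hT, dotProduct_comm]
  have hg : ∀ s, F (Function.update t i (t i + s)) = F t + g s := by
    intro s
    have h1 : (fun j => Real.exp (Function.update t i (t i + s) j)) =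
        x + Pi.single i (x i * (Real.exp s - 1)) := by
      funext j
      by_cases hj : j = i
      · subst hj
        rw [Function.update_self, Pi.add_apply, Pi.single_eq_same, Real.exp_add]
        simp only [hx]
        ring
      · rw [Function.update_of_ne hj, Pi.add_apply, Pi.single_eq_of_ne hj, add_zero]
    have h2 : ∑ j, lam j * Function.update t i (t i + s) j = ∑ j, lam j * t j + lam i * s := by
      have h3 : ∀ j, lam j * Function.update t i (t i + s) j =
          lam j * t j + if j = i then lam i * s else 0 := by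
        intro j
        by_cases hj : j = i
        · subst hj
          rw [Function.update_self, if_pos rfl]
          ring
        · rw [Function.update_of_ne hj, if_neg hj, add_zero]
      simp only [h3, Finset.sum_add_distrib, Finset.sum_ite_eq', Finset.mem_univ, if_true]
    simp only [F, g]
    rw [h1, h2, mulVec_add, add_dotProduct, dotProduct_add, dotProduct_add, dotProduct_add,
      hsym x (Pi.single i _), single_dotProduct, single_dotProduct, dotProduct_single]
    have h5 : (M *ᵥ Pi.single i (x i * (Real.exp s - 1))) i = M i i * (x i * (Real.exp s - 1)) := by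
      change M i ⬝ᵥ Pi.single i _ = _
      rw [dotProduct_single]
    rw [h5, ← hx]
    ring
  have hmin : ∀ s, g 0 ≤ g s := by
    intro s
    have h1 := ht (Function.update t i (t i + s))
    rw [hg] at h1
    have h2 : g 0 = 0 := by simp [g]
    linarith
  have hder : HasDerivAt g (x i * ((M *ᵥ x) i + ζ i) - lam i) 0 := by
    have h1 : HasDerivAt (fun s : ℝ => x i * (Real.exp s - 1)) (x i) 0 := by
      have := ((Real.hasDerivAt_exp 0).sub_const 1).const_mul (x i)
      simpa using this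
    have h2 := ((h1.mul_const ((M *ᵥ x) i + ζ i)).add
      (((h1.pow 2).mul_const (M i i)).div_const 2)).sub ((hasDerivAt_id (0 : ℝ)).const_mul (lam i))
    refine h2.congr_deriv ?_
    simp
  have h0 := (IsLocalMin.hasDerivAt_eq_zero (a := 0)
    (Filter.Eventually.of_forall fun s => hmin s) hder)
  simp only [fm]
  rw [div_sub' hxi.ne', div_eq_iff hxi.ne']
  linarith

/-- existence of the roots -/
theorem exists_root {M : Matrix ι ι ℝ} (hM : M.PosDef) {lam : ι → ℝ} (hlam : ∀ i, 0 < lam i)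
    (S : Finset ι) (ζ : ι → ℝ) : ∃ c ∈ orth S, fm M lam c = ζ := by
  have hD : (diagonal (sg S)).IsHermitian := by
    rw [IsHermitian, diagonal_conjTranspose]
    rfl
  have hM' : (diagonal (sg S) * M * diagonal (sg S)).PosDef := by
    have h1 : Function.Injective (diagonal (sg S)).mulVec := by
      intro v w h
      funext i
      have := congrFun h i
      rw [mulVec_diagonal, mulVec_diagonal] at this
      exact mul_left_cancel₀ (sg_ne S i) this
    have h2 := hM.conjTranspose_mul_mul_same h1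
    rwa [hD] at h2
  obtain ⟨x, hx, hxf⟩ := exists_root_pos hM' hlam fun i => sg S i * ζ i
  refine ⟨fun i => sg S i * x i, fun i => ?_, ?_⟩
  · rw [← mul_assoc, sg_mul_self, one_mul]
    exact hx i
  · funext i
    have h1 := congrFun hxf i
    simp only [fm] at h1 ⊢
    rw [← mulVec_mulVec, ← mulVec_mulVec, mulVec_diagonal] at h1
    have h2 : diagonal (sg S) *ᵥ x = fun i => sg S i * x i := by
      funext j
      rw [mulVec_diagonal]
    rw [h2] at h1
    have h3 : lam i / (sg S i * x i) = sg S i * (lam i / x i) := by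
      have h4 := sg_mul_self S i
      have h5 := (hx i).ne'
      have h6 := sg_ne S i
      field_simp
      rw [sq, h4, mul_one]
    rw [h3]
    have h7 := congrArg (fun y => sg S i * y) h1
    simp only [mul_sub, ← mul_assoc, sg_mul_self, one_mul] at h7
    exact h7

end Pool.Agent.GPI
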