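import Mathlib
import Pool.Agent.GPI.Final
import Pool.Agent.GPI.Full.Pointwise
import Pool.Agent.GPI.Full.Fubini
import Pool.Agent.GPI.Full.Dens

set_option autoImplicit false

open MeasureTheory ProbabilityTheory Matrix Set Filter
open scoped ENNReal Topology

namespace Pool.Agent.GPI.Full

lemma measurable_dens {d : ℕ} (A : Matrix (Fin d) (Fin d) ℝ) : Measurable (dens A) := by
  have h1 : ∀ i, Measurable fun y : Fin d → ℝ => (A⁻¹ *ᵥ y) i := by
    intro i
    simp only [Matrix.mulVec, dotProduct]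
    exact Finset.measurable_sum _ (fun j _ => (measurable_pi_apply j).const_mul _)
  unfold dens
  refine Measurable.const_mul (Measurable.const_mul (Real.measurable_exp.comp ?_) _) _
  refine Measurable.div_const (Measurable.neg ?_) _
  exact Finset.measurable_sum _ (fun i _ => (h1 i).pow_const 2)

lemma gamma_dup {b : ℝ} : Real.Gamma b = 2 ^ (b / 2 - 1) * Real.Gamma (b / 2) * km (b / 2) := by
  have h := Real.Gamma_mul_Gamma_add_half (b / 2)
  have h2 : 2 * (b / 2) = b := by ring
  rw [h2] at h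
  have hpi : √Real.pi ≠ 0 := by positivity
  unfold km
  have h3 : (2:ℝ) ^ (b / 2 - 1) * Real.Gamma (b / 2) * (2 ^ (b / 2) * Real.Gamma (b / 2 + 1 / 2) / √Real.pi)
      = (Real.Gamma (b / 2) * Real.Gamma (b / 2 + 1 / 2)) * ((2:ℝ) ^ (b / 2 - 1) * 2 ^ (b / 2)) / √Real.pi := by ring
  rw [h3, h]
  have h4 : (2:ℝ) ^ (1 - b) * ((2:ℝ) ^ (b / 2 - 1) * 2 ^ (b / 2)) = 1 := by
    rw [← Real.rpow_add (by norm_num), ← Real.rpow_add (by norm_num)]
    have : 1 - b + (b / 2 - 1 + b / 2) = 0 := by ring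
    rw [this, Real.rpow_zero]
  rw [eq_div_iff hpi]
  linear_combination (-(Real.Gamma b * √Real.pi)) * h4

theorem gpi_unit {d : ℕ} {A : Matrix (Fin d) (Fin d) ℝ} (hA : A.det ≠ 0)
    (hu : ∀ i, ∑ k, A i k ^ 2 = 1) {b : Fin d → ℝ} (hb : ∀ i, 0 < b i) :
    ∏ i, ENNReal.ofReal (km (b i / 2)) ≤ ∫⁻ g, ENNReal.ofReal (∏ i, |(A *ᵥ g) i| ^ (b i)) ∂(gam d) := by
  classical
  have hM : (A * Aᵀ).PosDef := by
    have hinj : Function.Injective (fun v => v ᵥ* A) := by
      apply Matrix.vecMul_injective_of_isUnit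
      rw [Matrix.isUnit_iff_isUnit_det]
      exact isUnit_iff_ne_zero.mpr hA
    have := Matrix.PosDef.mul_conjTranspose_self A hinj
    rwa [Matrix.conjTranspose_eq_transpose_of_trivial] at this
  have hd : ∀ i, (A * Aᵀ) i i = 1 := by
    intro i
    rw [Matrix.mul_apply, ← hu i]
    apply Finset.sum_congr rfl
    intro k _
    rw [Matrix.transpose_apply, sq]
  have hone : ∫⁻ z, ENNReal.ofReal (dens A z) = 1 := by
    have := lintegral_gam hA (F := fun _ => 1) measurable_const
    simp only [lintegral_const, measure_univ, mul_one, one_mul] at this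
    exact this.symm
  have hpt : ∀ l : Fin d → ℝ, (∀ i, 0 < l i) → ENNReal.ofReal (Real.exp (-∑ i, l i)) ≤
      ∫⁻ c : Fin d → ℝ, ENNReal.ofReal ((∏ i, l i / (c i) ^ 2) * Real.exp (-(∑ i, (c i) ^ 2) / 2) *
        dens A (fun i => l i / c i)) := by
    intro l hl
    have := pointwise hM hd hl (measurable_dens A) (dens_nonneg A) (dens_shift hA)
    rwa [hone, mul_one] at this
  have hf := fubini_step (measurable_dens A) (dens_nonneg A) hpt hb
  have hmeas : Measurable fun y : Fin d → ℝ => ENNReal.ofReal (∏ i, |y i| ^ (b i)) := by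
    apply ENNReal.measurable_ofReal.comp
    apply Finset.measurable_prod
    intro i _
    exact (measurable_pi_apply i).abs.pow_const _
  have hint : ∫⁻ y : Fin d → ℝ, ENNReal.ofReal ((∏ i, |y i| ^ (b i)) * dens A y) =
      ∫⁻ g, ENNReal.ofReal (∏ i, |(A *ᵥ g) i| ^ (b i)) ∂(gam d) := by
    rw [lintegral_gam hA hmeas]
    apply lintegral_congr
    intro y
    rw [ENNReal.ofReal_mul (Finset.prod_nonneg (fun i _ => by positivity))]
  rw [hint] at hf
  have hprod : ∏ i, ENNReal.ofReal (Real.Gamma (b i)) =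
      (∏ i, ENNReal.ofReal (2 ^ (b i / 2 - 1) * Real.Gamma (b i / 2))) *
        ∏ i, ENNReal.ofReal (km (b i / 2)) := by
    rw [← Finset.prod_mul_distrib]
    apply Finset.prod_congr rfl
    intro i _
    have hG : 0 < Real.Gamma (b i / 2) := Real.Gamma_pos_of_pos (by have := hb i; positivity)
    rw [← ENNReal.ofReal_mul (by positivity), ← gamma_dup]
  rw [hprod] at hf
  refine (ENNReal.mul_le_mul_iff_right ?_ ?_).mp hf
  · rw [Finset.prod_ne_zero_iff]
    intro i _
    have hG : 0 < Real.Gamma (b i / 2) := Real.Gamma_pos_of_pos (by have := hb i; positivity)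
    have : 0 < (2:ℝ) ^ (b i / 2 - 1) * Real.Gamma (b i / 2) := by positivity
    simpa [ENNReal.ofReal_eq_zero] using this
  · exact ENNReal.prod_ne_top (fun i _ => ENNReal.ofReal_ne_top)

end Pool.Agent.GPI.Full
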